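import Pool.Agent.T9h34.N.Rich
import Pool.Agent.T9h35.NearBF.Chain

/-!
# Filling rich blocks one after the other
-/

set_option autoImplicit false

namespace Pool.Agent.T9h34.N

open Finset Pool.Agent.T9h34 Pool.Agent.T9h16 Pool.Agent.T9h35.Sharp Pool.Agent.T9h35.NearBF
open scoped Classical

variable {I : Type} {j W p : ℕ}

/-- The union of the blocks: the vertices of the block `β` in a part are those with its colour. -/
def uni (σ : Sys I j p) (γ : Vx j W → Fin p) (y : I → Set (EE j W)) : Set (EE j W) :=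
  {E | ∃ β, γ E.1.1 = σ.grp β E.1.1.1 ∧ γ E.1.2 = σ.grp β E.1.2.1 ∧ E ∈ y β}

theorem uni_mono (σ : Sys I j p) (γ : Vx j W → Fin p) {y y' : I → Set (EE j W)}
    (h : ∀ β, y β ⊆ y' β) : uni σ γ y ⊆ uni σ γ y' := by
  rintro E ⟨β, h1, h2, h3⟩
  exact ⟨β, h1, h2, h β h3⟩

theorem uni_leaf (σ : Sys I j p) (γ : Vx j W → Fin p) (E : EE j W) :
    (∀ y : I → Set (EE j W), E ∉ uni σ γ y) ∨
    (∃ β, ∀ y : I → Set (EE j W), E ∈ uni σ γ y ↔ E ∈ y β) := by
  by_cases h : ∃ β, γ E.1.1 = σ.grp β E.1.1.1 ∧ γ E.1.2 = σ.grp β E.1.2.1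
  · obtain ⟨β, h1, h2⟩ := h
    refine Or.inr ⟨β, fun y => ⟨?_, fun h3 => ⟨β, h1, h2, h3⟩⟩⟩
    rintro ⟨β', h3, h4, h5⟩
    have : β' = β := σ.lin β' β _ _ E.2 (h3.symm.trans h1) (h4.symm.trans h2)
    rwa [this] at h5
  · left
    rintro y ⟨β, h1, h2, -⟩
    exact h ⟨β, h1, h2⟩

theorem TK_uni (hj : 3 ≤ j) (σ : Sys I j p) (γ : Vx j W → Fin p) (y : I → Set (EE j W))
    (h : TK (uni σ γ y)) : ∃ β, TK (y β) := by
  obtain ⟨φ, hφ⟩ := h
  obtain ⟨f, hf⟩ : ∃ f : Fin j → Fin p, ∀ i, f i = γ (i, φ i) := ⟨_, fun _ => rfl⟩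
  have hbl : ∀ i i' (h : i < i'), ∃ β, σ.grp β i = f i ∧ σ.grp β i' = f i' ∧
      (⟨((i, φ i), (i', φ i')), h⟩ : EE j W) ∈ y β := by
    intro i i' h
    have h1 : (⟨((i, φ i), (i', φ i')), h⟩ : EE j W) ∈ posG φ := ⟨rfl, rfl⟩
    obtain ⟨β, h2, h3, h4⟩ := hφ h1
    exact ⟨β, by rw [hf]; exact h2.symm, by rw [hf]; exact h3.symm, h4⟩
  have htri : ∀ i₁ i₂ i₃ β₁ β₂ β₃, i₁ < i₂ → i₂ < i₃ →
      (σ.grp β₁ i₁ = f i₁ ∧ σ.grp β₁ i₂ = f i₂) →
      (σ.grp β₂ i₂ = f i₂ ∧ σ.grp β₂ i₃ = f i₃) →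
      (σ.grp β₃ i₁ = f i₁ ∧ σ.grp β₃ i₃ = f i₃) → β₁ = β₃ ∧ β₂ = β₃ := by
    intro i₁ i₂ i₃ β₁ β₂ β₃ h12 h23 e1 e2 e3
    exact σ.tri β₁ β₂ β₃ i₁ i₂ i₃ h12 h23 (e1.1.trans e3.1.symm) (e1.2.trans e2.1.symm)
      (e2.2.trans e3.2.symm)
  obtain ⟨z₀, hz₀⟩ : ∃ z₀ : Fin j, z₀ = ⟨0, by omega⟩ := ⟨_, rfl⟩
  obtain ⟨z₁, hz₁⟩ : ∃ z₁ : Fin j, z₁ = ⟨1, by omega⟩ := ⟨_, rfl⟩
  have h01 : z₀ < z₁ := by
    rw [hz₀, hz₁, Fin.mk_lt_mk]
    omega
  have hz0v : z₀.val = 0 := by rw [hz₀]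
  have hz1v : z₁.val = 1 := by rw [hz₁]
  obtain ⟨β₀, hβ₀⟩ := hbl z₀ z₁ h01
  have hall : ∀ i i', i < i' → ∀ β, σ.grp β i = f i → σ.grp β i' = f i' → β = β₀ := by
    have hz : ∀ i', z₀ < i' → ∀ β, σ.grp β z₀ = f z₀ → σ.grp β i' = f i' → β = β₀ := by
      intro i' hi' β e1 e2
      by_cases hi1 : i' = z₁
      · subst hi1
        exact σ.lin β β₀ z₀ _ h01 (e1.trans hβ₀.1.symm) (e2.trans hβ₀.2.1.symm)
      · have h1i : z₁ < i' := by
          rw [Fin.lt_def] at hi' ⊢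
          have a2 : i'.val ≠ 1 := fun h => hi1 (Fin.ext (by rw [h, hz1v]))
          omega
        obtain ⟨β₂, hβ₂⟩ := hbl z₁ i' h1i
        have := htri z₀ z₁ i' β₀ β₂ β h01 h1i ⟨hβ₀.1, hβ₀.2.1⟩ ⟨hβ₂.1, hβ₂.2.1⟩ ⟨e1, e2⟩
        exact this.1.symm
    intro i i' hii β e1 e2
    by_cases hi : i = z₀
    · subst hi
      exact hz i' hii β e1 e2
    · have h0i : z₀ < i := by
        rw [Fin.lt_def]
        have a2 : i.val ≠ 0 := fun h => hi (Fin.ext (by rw [h, hz0v]))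
        omega
      obtain ⟨β₁, hβ₁⟩ := hbl z₀ i h0i
      obtain ⟨β₃, hβ₃⟩ := hbl z₀ i' (h0i.trans hii)
      have h5 := htri z₀ i i' β₁ β β₃ h0i hii ⟨hβ₁.1, hβ₁.2.1⟩ ⟨e1, e2⟩ ⟨hβ₃.1, hβ₃.2.1⟩
      rw [h5.2]
      exact hz i' (h0i.trans hii) β₃ hβ₃.1 hβ₃.2.1
  refine ⟨β₀, φ, ?_⟩
  rintro ⟨⟨⟨i, x⟩, ⟨i', x'⟩⟩, hii⟩ ⟨h2, h3⟩
  simp only at h2 h3
  subst h2
  subst h3
  obtain ⟨β, e1, e2, e3⟩ := hbl i i' hii
  rwa [hall i i' hii β e1 e2] at e3

/-- One step: a rich empty block can be filled by a negative input such that the values read by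
the further gates change. -/
theorem step_rich {Λ : Type} {m W p : ℕ} (hm : 2 ≤ m) (r : ℕ) (hr : 1 ≤ r)
    (σ : Sys I (m + 1) p) (γ : Vx (m + 1) W → Fin p) (F : Finset (Fin (m + 1) → Fin W))
    (C : Circuit Λ) (N : ℕ) (hs : C.size + C.numReads + 1 ≤ N)
    (X : Set (EE (m + 1) W) → Λ → Bool)
    (mono : ∀ z z', z ⊆ z' → ∀ a, X z a = true → X z' a = true)
    (leaf : ∀ a, Leaf (fun z => X z a = true))
    (sound : ∀ z, C.eval (X z) = true → TK z)
    (found : ∀ φ ∈ F, ∀ z, posG φ ⊆ z → C.eval (X z) = true)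
    (h1 : m ^ m * ((3 * N + 1) * NS (Vx (m + 1) W) m) < 2 ^ r)
    (y : I → Set (EE (m + 1) W)) (hy : ∀ β, ¬ TK (y β)) (β₀ : I) (hβ₀ : y β₀ = ∅)
    (hrich : N * (2 ^ (m + 1) * (2 * m * (m * r)) ^ m) ^ 2 < cntB F (σ.grp β₀) γ) :
    ∃ z, ¬ TK z ∧ C.reads (X (uni σ γ y)) ≠ C.reads (X (uni σ γ (Function.update y β₀ z))) := by
  obtain ⟨D, hD1, hD2, hD3, hD4⟩ := exists_detector C (X (uni σ γ y))
  by_contra hcon
  push Not at hcon
  have hsub : ∀ z β, y β ⊆ Function.update y β₀ z β := by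
    intro z β
    by_cases hi : β = β₀
    · subst hi
      rw [hβ₀]
      exact Set.empty_subset _
    · rw [Function.update_of_ne hi]
  have hleaf : ∀ a, Leaf (fun z => X (uni σ γ (Function.update y β₀ z)) a = true) := by
    intro a
    rcases leaf a with ⟨E, hE⟩ | ⟨b, hb⟩
    · rcases uni_leaf σ γ E with h | ⟨β, h⟩
      · refine Or.inr ⟨False, fun z => ?_⟩
        show X _ a = true ↔ _
        exact (hE _).trans ⟨fun h2 => h _ h2, fun h2 => h2.elim⟩
      · by_cases hβ : β = β₀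
        · subst hβ
          refine Or.inl ⟨E, fun z => ?_⟩
          show X _ a = true ↔ _
          refine (hE _).trans ((h _).trans ?_)
          rw [Function.update_self]
        · refine Or.inr ⟨E ∈ y β, fun z => ?_⟩
          show X _ a = true ↔ _
          refine (hE _).trans ((h _).trans ?_)
          rw [Function.update_of_ne hβ]
    · refine Or.inr ⟨b, fun z => ?_⟩
      show X _ a = true ↔ _
      exact hb _
  have hneg : ∀ z, ¬ TK z → D.eval (X (uni σ γ (Function.update y β₀ z))) ≠ true := by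
    intro z hz hD
    have h2 := hD4 _ (hcon z hz).symm hD
    obtain ⟨β, hβ⟩ := TK_uni (by omega) σ γ _ (sound _ h2)
    by_cases hi : β = β₀
    · subst hi
      rw [Function.update_self] at hβ
      exact hz hβ
    · rw [Function.update_of_ne hi] at hβ
      exact hy β hβ
  obtain ⟨x, hx⟩ : ∃ x : Set (EE (m + 1) W) → Λ → Bool,
      x = fun z => X (uni σ γ (Function.update y β₀ z)) := ⟨_, rfl⟩
  have hx' : ∀ z, x z = X (uni σ γ (Function.update y β₀ z)) := fun z => by rw [hx]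
  have hleaf' : ∀ a, Leaf (fun z => x z a = true) := by
    intro a
    simp only [hx']
    exact hleaf a
  obtain ⟨h, hh⟩ : ∃ h : Set (EE (m + 1) W) → Prop, h = fun z => D.eval (x z) = true := ⟨_, rfl⟩
  have hh' : ∀ z, h z ↔ D.eval (x z) = true := fun z => by rw [hh]
  have hfew := few_accepted_exp r (2 * m) hm hr le_rfl _ D.size (isSLP_gates D hD1 x hleaf')
    h (hh ▸ avail_out D x hleaf')
    (fun χ hχ => hneg (negG χ) (not_TK_negG χ) (by
      have := (hh' _).1 hχ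
      rwa [hx'] at this)) (lt_of_le_of_lt (by
        have := hD2.trans hs
        gcongr) h1)
  have hsubset : F.filter (InB (σ.grp β₀) γ) ⊆
      univ.filter fun φ : Fin (m + 1) → Fin W => h (posG φ) := by
    intro φ hφ
    rw [mem_filter] at hφ ⊢
    refine ⟨mem_univ _, (hh' _).2 ?_⟩
    by_contra hcon2
    rw [Bool.not_eq_true, hx'] at hcon2
    have h2 := (hD3 _ (fun i hi => mono _ _ (uni_mono σ γ (hsub (posG φ))) i hi) hcon2).2
    have h3 := found φ hφ.1 (uni σ γ (Function.update y β₀ (posG φ))) (by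
      intro E hE
      refine ⟨β₀, ?_, ?_, ?_⟩
      · have h4 := hφ.2 E.1.1.1
        rw [hE.1] at h4
        exact h4
      · have h4 := hφ.2 E.1.2.1
        rw [hE.2] at h4
        exact h4
      · rw [Function.update_self]
        exact hE)
    rw [h2] at h3
    exact absurd h3 (by simp)
  have h2 := (card_le_card hsubset).trans hfew
  have h3 : D.size * (2 ^ (m + 1) * (2 * m * (m * r)) ^ m) ^ 2
      ≤ N * (2 ^ (m + 1) * (2 * m * (m * r)) ^ m) ^ 2 := Nat.mul_le_mul_right _ (hD2.trans hs)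
  have h4 : cntB F (σ.grp β₀) γ ≤ D.size * (2 ^ (m + 1) * (2 * m * (m * r)) ^ m) ^ 2 := h2
  omega

/-- A chain with as many changes as there are rich blocks. -/
theorem chain_rich {Λ : Type} {m W p : ℕ} (hm : 2 ≤ m) (r : ℕ) (hr : 1 ≤ r)
    (σ : Sys I (m + 1) p) (γ : Vx (m + 1) W → Fin p) (F : Finset (Fin (m + 1) → Fin W))
    (C : Circuit Λ) (N : ℕ) (hs : C.size + C.numReads + 1 ≤ N)
    (X : Set (EE (m + 1) W) → Λ → Bool)
    (mono : ∀ z z', z ⊆ z' → ∀ a, X z a = true → X z' a = true)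
    (leaf : ∀ a, Leaf (fun z => X z a = true))
    (sound : ∀ z, C.eval (X z) = true → TK z)
    (found : ∀ φ ∈ F, ∀ z, posG φ ⊆ z → C.eval (X z) = true)
    (h1 : m ^ m * ((3 * N + 1) * NS (Vx (m + 1) W) m) < 2 ^ r)
    (B : Finset I) (hB : ∀ β ∈ B, N * (2 ^ (m + 1) * (2 * m * (m * r)) ^ m) ^ 2 <
      cntB F (σ.grp β) γ) :
    ∃ Y : ℕ → Set (EE (m + 1) W), (∀ i, Y i ⊆ Y (i + 1)) ∧ (∀ i, ¬ TK (Y i)) ∧
      ∀ i < B.card, C.reads (X (Y i)) ≠ C.reads (X (Y (i + 1))) := by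
  have key : ∀ l ≤ B.card, ∃ (Y : ℕ → I → Set (EE (m + 1) W)) (S : Finset I),
      S ⊆ B ∧ S.card = l ∧ (∀ i β, Y i β ⊆ Y (i + 1) β) ∧ (∀ i β, ¬ TK (Y i β)) ∧
      (∀ i < l, C.reads (X (uni σ γ (Y i))) ≠ C.reads (X (uni σ γ (Y (i + 1))))) ∧
      (∀ β, β ∉ S → Y l β = ∅) := by
    intro l
    induction l with
    | zero =>
      intro _
      exact ⟨fun _ _ => ∅, ∅, empty_subset _, card_empty, fun _ _ => Set.Subset.rfl,
        fun _ _ => not_TK_empty (by omega), fun i hi => absurd hi (by omega), fun _ _ => rfl⟩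
    | succ l ih =>
      intro hl
      obtain ⟨Y, S, hS, hSc, h2, h3, h4, h5⟩ := ih (by omega)
      obtain ⟨β₀, hβ₀, hβS⟩ : ∃ β₀ ∈ B, β₀ ∉ S := by
        by_contra hcon
        push Not at hcon
        have := card_le_card (show B ⊆ S from hcon)
        omega
      obtain ⟨z, hz, hch⟩ := step_rich hm r hr σ γ F C N hs X mono leaf sound found h1 (Y l)
        (h3 l) β₀ (h5 β₀ hβS) (hB β₀ hβ₀)
      have hsub : ∀ β, Y l β ⊆ Function.update (Y l) β₀ z β := by
        intro β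
        by_cases hi : β = β₀
        · subst hi
          rw [h5 _ hβS]
          exact Set.empty_subset _
        · rw [Function.update_of_ne hi]
      have hneg : ∀ β, ¬ TK (Function.update (Y l) β₀ z β) := by
        intro β
        by_cases hi : β = β₀
        · subst hi
          rw [Function.update_self]
          exact hz
        · rw [Function.update_of_ne hi]
          exact h3 l β
      refine ⟨fun i => if i ≤ l then Y i else Function.update (Y l) β₀ z, insert β₀ S,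
        ?_, ?_, ?_, ?_, ?_, ?_⟩
      · exact insert_subset hβ₀ hS
      · rw [card_insert_of_notMem hβS, hSc]
      · intro i β
        rcases lt_trichotomy i l with h | h | h
        · simp only [h.le, if_true, if_pos (Nat.succ_le_of_lt h)]
          exact h2 i β
        · subst h
          simp only [le_refl, if_true, if_neg (Nat.not_succ_le_self i)]
          exact hsub β
        · simp only [if_neg (by omega : ¬ i ≤ l), if_neg (by omega : ¬ i + 1 ≤ l)]
          exact Set.Subset.rfl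
      · intro i β
        by_cases h : i ≤ l
        · simp only [if_pos h]
          exact h3 i β
        · simp only [if_neg h]
          exact hneg β
      · intro i hi
        rcases Nat.lt_succ_iff_lt_or_eq.1 hi with h | h
        · simp only [h.le, if_true, if_pos (Nat.succ_le_of_lt h)]
          exact h4 i h
        · subst h
          simp only [le_refl, if_true, if_neg (Nat.not_succ_le_self i)]
          exact hch
      · intro β hβ
        rw [mem_insert, not_or] at hβ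
        simp only [if_neg (Nat.not_succ_le_self l)]
        rw [Function.update_of_ne hβ.1]
        exact h5 β hβ.2
  obtain ⟨Y, S, -, -, h2, h3, h4, -⟩ := key _ le_rfl
  refine ⟨fun i => uni σ γ (Y i), fun i => uni_mono σ γ (h2 i), ?_, h4⟩
  intro i hi
  obtain ⟨β, hβ⟩ := TK_uni (by omega) σ γ _ hi
  exact h3 i β hβ

end Pool.Agent.T9h34.N
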