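import Mathlib

/-!
# Spread links of families of transversals
-/

set_option autoImplicit false

namespace Pool.Agent.T9h34.N

open Finset
open scoped Classical

variable {κ W : ℕ}

/-- Put `ψ` on the parts in the range of `e` and `φ₀` on the others. -/
noncomputable def fill {j : ℕ} (e : Fin j ↪o Fin κ) (φ₀ : Fin κ → Fin W) (ψ : Fin j → Fin W)
    (i : Fin κ) : Fin W :=
  if h : ∃ i', e i' = i then ψ h.choose else φ₀ i

theorem fill_apply {j : ℕ} (e : Fin j ↪o Fin κ) (φ₀ : Fin κ → Fin W) (ψ : Fin j → Fin W)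
    (i : Fin j) : fill e φ₀ ψ (e i) = ψ i := by
  have h : ∃ i', e i' = e i := ⟨i, rfl⟩
  rw [fill, dif_pos h]
  exact congrArg ψ (e.injective h.choose_spec)

theorem fill_not {j : ℕ} (e : Fin j ↪o Fin κ) (φ₀ : Fin κ → Fin W) (ψ : Fin j → Fin W)
    (i : Fin κ) (h : ¬ ∃ i', e i' = i) : fill e φ₀ ψ i = φ₀ i := dif_neg h

/-- The members of `F` which agree with `φ` on `T`. -/
noncomputable def link (F : Finset (Fin κ → Fin W)) (T : Finset (Fin κ)) (φ : Fin κ → Fin W) :
    Finset (Fin κ → Fin W) :=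
  F.filter fun φ' => ∀ i ∈ T, φ' i = φ i

/-- Every family of transversals has a link which is spread and not much smaller. -/
theorem exists_core (F : Finset (Fin κ → Fin W)) (hF : F.Nonempty) (ρ : ℕ) (hρ : 1 ≤ ρ) :
    ∃ (j : ℕ) (e : Fin j ↪o Fin κ) (φ₀ : Fin κ → Fin W) (F' : Finset (Fin j → Fin W)),
      j ≤ κ ∧ (∀ ψ ∈ F', fill e φ₀ ψ ∈ F) ∧ F.card ≤ F'.card * ρ ^ (κ - j) ∧
      ∀ (T : Finset (Fin j)) (ψ₁ : Fin j → Fin W),
        (link F' T ψ₁).card * ρ ^ T.card ≤ F'.card := by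
  obtain ⟨φ, hφ⟩ := hF
  obtain ⟨⟨T, φ₀⟩, -, hmax⟩ := exists_max_image
    (univ : Finset (Finset (Fin κ) × (Fin κ → Fin W)))
    (fun x => (link F x.1 x.2).card * ρ ^ x.1.card) ⟨(∅, φ), mem_univ _⟩
  obtain ⟨J, hJ⟩ : ∃ J : Finset (Fin κ), J = Tᶜ := ⟨_, rfl⟩
  obtain ⟨e, he⟩ : ∃ e : Fin J.card ↪o Fin κ, e = J.orderEmbOfFin rfl := ⟨_, rfl⟩
  have hrange : ∀ i, (∃ i', e i' = i) ↔ i ∉ T := by
    intro i
    have h1 := Finset.range_orderEmbOfFin J rfl
    rw [← he] at h1
    have h2 : i ∈ Set.range e ↔ i ∈ J := by rw [h1]; exact Iff.rfl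
    have h3 : i ∈ J ↔ i ∉ T := by rw [hJ, mem_compl]
    exact h2.trans h3
  have hcardT : T.card = κ - J.card := by
    have h1 : T.card ≤ κ := by
      have := card_le_univ T
      rwa [Fintype.card_fin] at this
    rw [hJ, card_compl, Fintype.card_fin]
    omega
  have hJκ : J.card ≤ κ := by
    have := card_le_univ J
    rwa [Fintype.card_fin] at this
  obtain ⟨F', hF'⟩ : ∃ F' : Finset (Fin J.card → Fin W),
      F' = univ.filter fun ψ => fill e φ₀ ψ ∈ F := ⟨_, rfl⟩
  have hmemF' : ∀ ψ, ψ ∈ F' ↔ fill e φ₀ ψ ∈ F := by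
    intro ψ
    rw [hF', mem_filter]
    exact ⟨fun h => h.2, fun h => ⟨mem_univ _, h⟩⟩
  have hfill : ∀ φ', (∀ i ∈ T, φ' i = φ₀ i) → fill e φ₀ (fun i => φ' (e i)) = φ' := by
    intro φ' h
    funext i
    by_cases hi : i ∈ T
    · rw [fill_not _ _ _ _ (fun h1 => (hrange i).1 h1 hi), h i hi]
    · obtain ⟨i', rfl⟩ := (hrange i).2 hi
      rw [fill_apply]
  have hle : (link F T φ₀).card ≤ F'.card := by
    apply card_le_card_of_injOn (fun φ' i => φ' (e i))
    · intro φ' hφ'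
      rw [link, mem_coe, mem_filter] at hφ'
      rw [mem_coe, hmemF', hfill φ' hφ'.2]
      exact hφ'.1
    · intro φ' hφ' φ'' hφ'' h
      rw [link, mem_coe, mem_filter] at hφ' hφ''
      rw [← hfill φ' hφ'.2, ← hfill φ'' hφ''.2]
      simp only at h
      rw [h]
  refine ⟨J.card, e, φ₀, F', hJκ, fun ψ hψ => (hmemF' ψ).1 hψ, ?_, ?_⟩
  · have h1 := hmax (∅, φ₀) (mem_univ _)
    simp only [card_empty, pow_zero, mul_one] at h1
    have h2 : link F ∅ φ₀ = F := by
      rw [link]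
      apply filter_true_of_mem
      intro φ' _ i hi
      exact absurd hi (notMem_empty i)
    rw [h2, hcardT] at h1
    exact h1.trans (Nat.mul_le_mul_right _ hle)
  · intro T' ψ₁
    have h1 := hmax (T ∪ T'.map e.toEmbedding, fill e φ₀ ψ₁) (mem_univ _)
    simp only at h1
    have hdisj : Disjoint T (T'.map e.toEmbedding) := by
      rw [Finset.disjoint_left]
      intro i hi hi'
      rw [mem_map] at hi'
      obtain ⟨i', -, hi'⟩ := hi'
      exact (hrange i).1 ⟨i', hi'⟩ hi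
    rw [card_union_of_disjoint hdisj, card_map, pow_add] at h1
    have h2 : (link F' T' ψ₁).card ≤
        (link F (T ∪ T'.map e.toEmbedding) (fill e φ₀ ψ₁)).card := by
      apply card_le_card_of_injOn (fun ψ => fill e φ₀ ψ)
      · intro ψ hψ
        rw [link, mem_coe, mem_filter] at hψ
        rw [link, mem_coe, mem_filter]
        refine ⟨(hmemF' ψ).1 hψ.1, ?_⟩
        intro i hi
        show fill e φ₀ ψ i = fill e φ₀ ψ₁ i
        rcases mem_union.1 hi with hi | hi
        · rw [fill_not _ _ _ _ (fun h1 => (hrange i).1 h1 hi),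
            fill_not _ _ _ _ (fun h1 => (hrange i).1 h1 hi)]
        · rw [mem_map] at hi
          obtain ⟨i', hi', rfl⟩ := hi
          show fill e φ₀ ψ (e i') = fill e φ₀ ψ₁ (e i')
          rw [fill_apply, fill_apply]
          exact hψ.2 i' hi'
      · intro ψ _ ψ' _ h
        funext i
        have := congrFun h (e i)
        simp only at this
        rwa [fill_apply, fill_apply] at this
    have h3 : 0 < ρ ^ T.card := Nat.pow_pos hρ
    apply Nat.le_of_mul_le_mul_right _ h3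
    calc (link F' T' ψ₁).card * ρ ^ T'.card * ρ ^ T.card
        ≤ (link F (T ∪ T'.map e.toEmbedding) (fill e φ₀ ψ₁)).card * ρ ^ T'.card * ρ ^ T.card :=
          Nat.mul_le_mul_right _ (Nat.mul_le_mul_right _ h2)
      _ = (link F (T ∪ T'.map e.toEmbedding) (fill e φ₀ ψ₁)).card *
          (ρ ^ T.card * ρ ^ T'.card) := by ring
      _ ≤ (link F T φ₀).card * ρ ^ T.card := h1
      _ ≤ F'.card * ρ ^ T.card := Nat.mul_le_mul_right _ hle

end Pool.Agent.T9h34.N
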