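import Pool.Agent.T9h34.N.Single
import Pool.Agent.T9h35.Sharp.Join
import Pool.Agent.T9h35.Sharp.Average
import Pool.Agent.T9h35.NearBF.Main

/-!
# The join of blocks, and averaging over the positions of the vertices
-/

set_option autoImplicit false

namespace Pool.Agent.T9h34.N

open Finset Pool.Agent.T9h34 Pool.Agent.T9h16 Pool.Agent.T9h35.Sharp Pool.Agent.T9h35.NearBF
open scoped Classical

/-- Along some increasing sequence of graphs without a clique with `k` vertices the values read by
the further gates of `C` change in each of the first `R` steps. -/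
def Changes {n : ℕ} (k : ℕ) (C : Circuit (Pair n)) (R : ℕ) : Prop :=
  ∃ G : ℕ → SimpleGraph (Fin n), (∀ i, G i ≤ G (i + 1)) ∧ (∀ i, ¬ HasClique k (G i)) ∧
    ∀ i < R, C.reads (edgeValues (G i)) ≠ C.reads (edgeValues (G (i + 1)))

/-- The circuit finds the set `S`: it accepts all graphs in which `S` is a clique. -/
def Finds {n : ℕ} (C : Circuit (Pair n)) (S : Finset (Fin n)) : Prop :=
  ∀ G : SimpleGraph (Fin n), G.IsClique (S : Set (Fin n)) → C.eval (edgeValues G) = true

/-- The property of one block which is needed. -/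
def BlockBound {n : ℕ} (C : Circuit (Pair n)) (m w Q R : ℕ) : Prop :=
  ∀ X : Set (EE (m + 1) w) → Pair n → Bool,
    (∀ z z', z ⊆ z' → ∀ a, X z a = true → X z' a = true) →
    (∀ a, Leaf (fun z => X z a = true)) →
    (∀ z, C.eval (X z) = true → TK z) →
    ∀ F : Finset (Fin (m + 1) → Fin w),
    (∀ φ ∈ F, ∀ z, posG φ ⊆ z → C.eval (X z) = true) → Q < F.card →
    ∃ Y : ℕ → Set (EE (m + 1) w), (∀ i, Y i ⊆ Y (i + 1)) ∧ (∀ i, ¬ TK (Y i)) ∧
      ∀ i < R, C.reads (X (Y i)) ≠ C.reads (X (Y (i + 1)))

/-- A sound circuit without changes in `R` steps finds few tuples of transversals. -/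
theorem core_neg (n k M m w u Q R : ℕ) (hM : 1 ≤ M) (hm : 2 ≤ m)
    (hk : k = u + M * (m + 1)) (ι : PVer M (m + 1) w u ↪ Fin n) (C : Circuit (Pair n))
    (hsound : ∀ G : SimpleGraph (Fin n), C.eval (edgeValues G) = true → HasClique k G)
    (hno : ¬ Changes k C R) (hblock : BlockBound C m w Q R) :
    (univ.filter fun Φ : Fin M → Fin (m + 1) → Fin w =>
      Finds C ((tset (u := u) Φ).map ι)).card ≤ Q ^ M := by
  have hk2 : 2 ≤ k := by
    have : 1 * (m + 1) ≤ M * (m + 1) := Nat.mul_le_mul_right _ hM
    omega
  obtain ⟨G, hG⟩ : ∃ G : (Fin M → Set (EE (m + 1) w)) → SimpleGraph (Fin n),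
      ∀ y, G y = (PG (u := u) y).map ι := ⟨_, fun _ => rfl⟩
  have hGm : ∀ y y', (∀ i, y i ⊆ y' i) → G y ≤ G y' := by
    intro y y' h
    rw [hG, hG]
    exact SimpleGraph.map_monotone ι (PG_mono h)
  have hGl : ∀ a b : Fin n, (∃ t : Prop, ∀ y, (G y).Adj a b ↔ t) ∨
      (∃ i e, ∀ y, (G y).Adj a b ↔ e ∈ y i) := by
    intro a b
    simp only [hG]
    by_cases ha : ∃ u', ι u' = a
    · by_cases hb : ∃ v', ι v' = b
      · obtain ⟨a', rfl⟩ := ha
        obtain ⟨b', rfl⟩ := hb
        simp only [SimpleGraph.map_adj_apply]
        exact PG_leaf a' b'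
      · left
        refine ⟨False, fun y => ?_⟩
        simp only [SimpleGraph.map_adj, iff_false, not_exists, not_and]
        rintro u' v' _ _ h
        exact hb ⟨v', h⟩
    · left
      refine ⟨False, fun y => ?_⟩
      simp only [SimpleGraph.map_adj, iff_false, not_exists, not_and]
      rintro u' v' _ h _
      exact ha ⟨u', h⟩
  have hGc : ∀ y, HasClique k (G y) → ∀ i, TK (y i) := by
    intro y hy
    have h1 : ∃ c : Finset (Fin n), (G y).IsClique (c : Set (Fin n)) ∧ k ≤ c.card := hy
    rw [hG, clique_map _ ι k hk2, hk, PG_clique] at h1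
    exact h1
  -- the transversals found in one block, the other blocks being full
  obtain ⟨A, hA⟩ : ∃ A : Fin M → Finset (Fin (m + 1) → Fin w), ∀ i, A i =
      univ.filter fun φ => ∀ z, posG φ ⊆ z →
        C.eval (edgeValues (G (Function.update (fun _ => Set.univ) i z))) = true :=
    ⟨_, fun _ => rfl⟩
  have hAc : ∀ i, (A i).card ≤ Q := by
    intro i
    by_contra hcon
    push Not at hcon
    have hsubU : ∀ z z' : Set (EE (m + 1) w), z ⊆ z' → ∀ i',
        (Function.update (fun _ => Set.univ) i z : Fin M → Set (EE (m + 1) w)) i' ⊆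
        (Function.update (fun _ => Set.univ) i z' : Fin M → Set (EE (m + 1) w)) i' := by
      intro z z' hz i'
      by_cases hii : i' = i
      · subst hii
        rw [Function.update_self, Function.update_self]
        exact hz
      · rw [Function.update_of_ne hii, Function.update_of_ne hii]
    obtain ⟨Y, hY1, hY2, hY3⟩ := hblock
      (fun z => edgeValues (G (Function.update (fun _ => Set.univ) i z)))
      (by
        intro z z' hz a ha
        simp only [edgeValues, decide_eq_true_eq] at ha ⊢
        exact hGm _ _ (hsubU z z' hz) ha)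
      (by
        intro e
        rcases hGl e.1.1 e.1.2 with ⟨t, ht⟩ | ⟨i', b, hb⟩
        · refine Or.inr ⟨t, fun z => ?_⟩
          simp only [edgeValues, decide_eq_true_eq]
          exact ht _
        · by_cases hii : i' = i
          · subst hii
            refine Or.inl ⟨b, fun z => ?_⟩
            simp only [edgeValues, decide_eq_true_eq]
            rw [hb, Function.update_self]
          · refine Or.inr ⟨True, fun z => ?_⟩
            simp only [edgeValues, decide_eq_true_eq]
            rw [hb, Function.update_of_ne hii]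
            exact iff_of_true (Set.mem_univ _) trivial)
      (by
        intro z hz
        have := hGc _ (hsound _ hz) i
        rwa [Function.update_self] at this)
      (A i)
      (by
        intro φ hφ z hz
        rw [hA, mem_filter] at hφ
        exact hφ.2 z hz)
      hcon
    apply hno
    refine ⟨fun l => G (Function.update (fun _ => Set.univ) i (Y l)), ?_, ?_, hY3⟩
    · intro l
      exact hGm _ _ (hsubU _ _ (hY1 l))
    · intro l hl
      have := hGc _ hl i
      rw [Function.update_self] at this
      exact hY2 l this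
  have hcover : (univ.filter fun Φ : Fin M → Fin (m + 1) → Fin w =>
      Finds C ((tset (u := u) Φ).map ι)) ⊆ Fintype.piFinset A := by
    intro Φ hΦ
    rw [mem_filter] at hΦ
    rw [Fintype.mem_piFinset]
    intro i
    rw [hA, mem_filter]
    refine ⟨mem_univ _, fun z hz => hΦ.2 _ ?_⟩
    have h1 : (PG (u := u) fun i => posG (Φ i)) ≤
        PG (Function.update (fun _ => Set.univ) i z) := by
      apply PG_mono
      intro i'
      by_cases hii : i' = i
      · subst hii
        rw [Function.update_self]
        exact hz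
      · rw [Function.update_of_ne hii]
        exact Set.subset_univ _
    rw [hG, coe_map]
    exact ((tset_clique Φ).mono h1).map
  refine (card_le_card hcover).trans ?_
  rw [Fintype.card_piFinset]
  refine (prod_le_pow_card _ _ _ fun i _ => hAc i).trans ?_
  rw [card_univ, Fintype.card_fin]

/-- A sound circuit without changes in `R` steps finds few cliques. -/
theorem few_neg (n k M m w u Q R : ℕ) (hM : 1 ≤ M) (hm : 2 ≤ m)
    (hk : k = u + M * (m + 1)) (hn : M * (m + 1) * w + u ≤ n) (C : Circuit (Pair n))
    (hsound : ∀ G : SimpleGraph (Fin n), C.eval (edgeValues G) = true → HasClique k G)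
    (hno : ¬ Changes k C R) (hblock : BlockBound C m w Q R) :
    (univ.filter fun S : Finset (Fin n) => S.card = k ∧ Finds C S).card *
        (w ^ (m + 1)) ^ M ≤ Q ^ M * n.choose k := by
  have hcard : Fintype.card (PVer M (m + 1) w u) ≤ Fintype.card (Fin n) := by
    simp only [Fintype.card_sum, Fintype.card_prod, Fintype.card_fin]
    exact hn
  obtain ⟨ι⟩ := Function.Embedding.nonempty_of_card_le hcard
  obtain ⟨F, hF⟩ : ∃ F, F = univ.filter fun S : Finset (Fin n) => S.card = k ∧ Finds C S :=
    ⟨_, rfl⟩
  rw [← hF]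
  have hav := averaging (k := k) F (by
      intro S hS
      rw [hF, mem_filter] at hS
      exact hS.2.1)
    (fun Φ : Fin M → Fin (m + 1) → Fin w => (tset (u := u) Φ).map ι)
    (by
      intro Φ
      rw [card_map, tset_card, hk])
    (Q ^ M) (by
      intro π
      refine (card_le_card ?_).trans
        (core_neg n k M m w u Q R hM hm hk (ι.trans π.toEmbedding) C hsound hno hblock)
      intro Φ hΦ
      rw [mem_filter, hF, mem_filter] at hΦ
      rw [mem_filter]
      refine ⟨mem_univ _, ?_⟩
      have h1 := hΦ.2.2.2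
      rw [map_map] at h1
      exact h1)
  rw [Fintype.card_fun, Fintype.card_fun, Fintype.card_fin, Fintype.card_fin,
    Fintype.card_fin] at hav
  exact hav

/-- The bound with the block system. -/
theorem few_found {I : Type} [Fintype I] (n k M m w u p r N R : ℕ) (hM : 1 ≤ M) (hm : 2 ≤ m)
    (hk : k = u + M * (m + 1)) (hn : M * (m + 1) * w + u ≤ n)
    (σ : Sys I (m + 1) p) (hI : 8 * R ≤ Fintype.card I)
    (C : Circuit (Pair n)) (hs : C.size + C.numReads + 1 ≤ N)
    (hsound : ∀ G : SimpleGraph (Fin n), C.eval (edgeValues G) = true → HasClique k G)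
    (hno : ¬ Changes k C R)
    (h1 : m ^ m * ((3 * N + 1) * ((m + 1) * w + 1) ^ m) < 2 ^ r) :
    (univ.filter fun S : Finset (Fin n) => S.card = k ∧ Finds C S).card *
        (w ^ (m + 1)) ^ M ≤
      (2 * N * w ^ 2 * ((4 * m ^ 2 * r) ^ 2 * (2 * (m + 1) * p)) ^ (m + 1)) ^ M * n.choose k :=
  few_neg n k M m w u _ R hM hm hk hn C hsound hno
    (fun X mono leaf sound F found hF =>
      single_block hm r N R σ hI C hs X mono leaf sound F found h1 hF)

end Pool.Agent.T9h34.N
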