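import Mathlib

/-!
# Random colourings: the second moment method with classes of different sizes
-/

set_option autoImplicit false

namespace Pool.Agent.T9h34.N

open Finset
open scoped Classical

variable {ι V Γ : Type} [Fintype ι] [Fintype V] [Fintype Γ]

set_option linter.unusedSectionVars false

/-- The colours allowed at a vertex. -/
noncomputable def allowed (cl : Γ → ι) (I : Finset ι) (f : ι → V) (v : V) : Finset Γ :=
  univ.filter fun γ => ∀ l ∈ I, f l = v → cl γ = l

theorem allowed_self {cl : Γ → ι} {I : Finset ι} {f : ι → V} (hf : Function.Injective f) {l : ι}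
    (hl : l ∈ I) : allowed cl I f (f l) = univ.filter fun γ => cl γ = l := by
  ext γ
  rw [allowed, mem_filter, mem_filter]
  constructor
  · rintro ⟨-, h⟩
    exact ⟨mem_univ _, h l hl rfl⟩
  · rintro ⟨-, h⟩
    refine ⟨mem_univ _, fun l' _ h' => ?_⟩
    rw [hf h']
    exact h

theorem allowed_out {cl : Γ → ι} {I : Finset ι} {f : ι → V} {v : V} (hv : v ∉ I.image f) :
    allowed cl I f v = univ := by
  rw [allowed, filter_true_of_mem]
  intro γ _ l hl h
  exact absurd (mem_image.2 ⟨l, hl, h⟩) hv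

/-- Number of colourings compatible with one member. -/
theorem count_single [Nonempty Γ] (cl : Γ → ι) (I : Finset ι) (w : ι → ℝ)
    (hw : ∀ l, w l = ((univ.filter fun γ => cl γ = l).card : ℝ) / Fintype.card Γ)
    {f : ι → V} (hf : Function.Injective f) :
    ((univ.filter fun c : V → Γ => ∀ l ∈ I, cl (c (f l)) = l).card : ℝ) =
      (Fintype.card Γ : ℝ) ^ Fintype.card V * ∏ l ∈ I, w l := by
  have hg : (Fintype.card Γ : ℝ) ≠ 0 := by exact_mod_cast Fintype.card_ne_zero
  have h1 : (univ.filter fun c : V → Γ => ∀ l ∈ I, cl (c (f l)) = l) =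
      Fintype.piFinset (allowed cl I f) := by
    ext c
    rw [mem_filter, Fintype.mem_piFinset]
    constructor
    · rintro ⟨-, h⟩ v
      rw [allowed, mem_filter]
      refine ⟨mem_univ _, fun l hl hv => ?_⟩
      rw [← hv]
      exact h l hl
    · intro h
      refine ⟨mem_univ _, fun l hl => ?_⟩
      have := h (f l)
      rw [allowed, mem_filter] at this
      exact this.2 l hl rfl
  rw [h1, Fintype.card_piFinset, Nat.cast_prod]
  have h2 : ∀ v : V, ((allowed cl I f v).card : ℝ) =
      (Fintype.card Γ : ℝ) * (((allowed cl I f v).card : ℝ) / Fintype.card Γ) := by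
    intro v
    field_simp
  rw [prod_congr rfl fun v _ => h2 v, prod_mul_distrib, prod_const, card_univ]
  congr 1
  rw [← prod_subset (subset_univ (I.image f))]
  · rw [prod_image (fun l _ l' _ h => hf h)]
    apply prod_congr rfl
    intro l hl
    rw [allowed_self hf hl, hw]
  · intro v _ hv
    rw [allowed_out hv, card_univ, div_self hg]

/-- Number of colourings compatible with two members. -/
theorem count_pair [Nonempty Γ] (cl : Γ → ι) (I : Finset ι) (w : ι → ℝ)
    (hw : ∀ l, w l = ((univ.filter fun γ => cl γ = l).card : ℝ) / Fintype.card Γ)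
    {f f' : ι → V} (hf : Function.Injective f) (hf' : Function.Injective f') :
    ((univ.filter fun c : V → Γ => (∀ l ∈ I, cl (c (f l)) = l) ∧
      ∀ l ∈ I, cl (c (f' l)) = l).card : ℝ) ≤
      (Fintype.card Γ : ℝ) ^ Fintype.card V *
        ((∏ l ∈ I, w l) * ∏ l ∈ I with f l ≠ f' l, w l) := by
  have hg : (0 : ℝ) < Fintype.card Γ := by exact_mod_cast Fintype.card_pos
  have hw0 : ∀ l, 0 ≤ w l := by
    intro l
    rw [hw]
    positivity
  have h1 : (univ.filter fun c : V → Γ => (∀ l ∈ I, cl (c (f l)) = l) ∧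
      ∀ l ∈ I, cl (c (f' l)) = l) =
      Fintype.piFinset (fun v => allowed cl I f v ∩ allowed cl I f' v) := by
    ext c
    rw [mem_filter, Fintype.mem_piFinset]
    constructor
    · rintro ⟨-, h, h'⟩ v
      rw [mem_inter, allowed, allowed, mem_filter, mem_filter]
      refine ⟨⟨mem_univ _, fun l hl hv => ?_⟩, mem_univ _, fun l hl hv => ?_⟩
      · rw [← hv]
        exact h l hl
      · rw [← hv]
        exact h' l hl
    · intro h
      refine ⟨mem_univ _, fun l hl => ?_, fun l hl => ?_⟩
      · have := h (f l)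
        rw [mem_inter, allowed, mem_filter] at this
        exact this.1.2 l hl rfl
      · have := h (f' l)
        rw [mem_inter, allowed, allowed, mem_filter, mem_filter] at this
        exact this.2.2 l hl rfl
  obtain ⟨x, hx⟩ : ∃ x : V → ℝ, ∀ v, x v =
      ((allowed cl I f v ∩ allowed cl I f' v).card : ℝ) / Fintype.card Γ := ⟨_, fun _ => rfl⟩
  have h2 : ∀ v : V, ((allowed cl I f v ∩ allowed cl I f' v).card : ℝ) =
      (Fintype.card Γ : ℝ) * x v := by
    intro v
    rw [hx]
    field_simp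
  rw [h1, Fintype.card_piFinset, Nat.cast_prod, prod_congr rfl fun v _ => h2 v, prod_mul_distrib,
    prod_const, card_univ]
  apply mul_le_mul_of_nonneg_left _ (by positivity)
  have hx0 : ∀ v, 0 ≤ x v := by
    intro v
    rw [hx]
    exact div_nonneg (Nat.cast_nonneg _) hg.le
  have hx1 : ∀ v, x v ≤ 1 := by
    intro v
    rw [hx, div_le_one hg]
    exact_mod_cast card_le_univ _
  have hR : 0 ≤ (∏ l ∈ I, w l) * ∏ l ∈ I with f l ≠ f' l, w l :=
    mul_nonneg (prod_nonneg fun l _ => hw0 l) (prod_nonneg fun l _ => hw0 l)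
  by_cases hcon : ∃ l ∈ I, ∃ l' ∈ I, l ≠ l' ∧ f l = f' l'
  · obtain ⟨l, hl, l', hl', hne, he⟩ := hcon
    have h3 : x (f l) = 0 := by
      rw [hx]
      have h4 : allowed cl I f (f l) ∩ allowed cl I f' (f l) = ∅ := by
        rw [eq_empty_iff_forall_notMem]
        intro γ hγ
        rw [mem_inter, allowed, allowed, mem_filter, mem_filter] at hγ
        exact hne ((hγ.1.2 l hl rfl).symm.trans (hγ.2.2 l' hl' he.symm))
      rw [h4, card_empty, Nat.cast_zero, zero_div]
    rw [prod_eq_zero (mem_univ (f l)) h3]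
    exact hR
  · push Not at hcon
    have hdisj : Disjoint (I.image f) ((I.filter fun l => f l ≠ f' l).image f') := by
      rw [disjoint_left]
      intro v hv hv'
      rw [mem_image] at hv hv'
      obtain ⟨l, hl, rfl⟩ := hv
      obtain ⟨l', hl', he⟩ := hv'
      rw [mem_filter] at hl'
      by_cases h : l = l'
      · rw [h] at he
        exact hl'.2 he.symm
      · exact hcon l hl l' hl'.1 h he.symm
    have h3 : ∏ v, x v ≤ ∏ v ∈ I.image f ∪ (I.filter fun l => f l ≠ f' l).image f', x v := by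
      rw [← prod_mul_prod_compl (I.image f ∪ (I.filter fun l => f l ≠ f' l).image f')]
      apply mul_le_of_le_one_right (prod_nonneg fun v _ => hx0 v)
      exact prod_le_one (fun v _ => hx0 v) (fun v _ => hx1 v)
    refine h3.trans ?_
    rw [prod_union hdisj, prod_image (fun l _ l' _ h => hf h),
      prod_image (fun l _ l' _ h => hf' h)]
    apply mul_le_mul
    · apply prod_le_prod (fun l _ => hx0 _)
      intro l hl
      rw [hx, hw]
      apply div_le_div_of_nonneg_right _ hg.le
      have : allowed cl I f (f l) ∩ allowed cl I f' (f l) ⊆ univ.filter fun γ => cl γ = l := by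
        rw [← allowed_self hf hl]
        exact inter_subset_left
      exact_mod_cast card_le_card this
    · apply prod_le_prod (fun l _ => hx0 _)
      intro l hl
      rw [mem_filter] at hl
      rw [hx, hw]
      apply div_le_div_of_nonneg_right _ hg.le
      have : allowed cl I f (f' l) ∩ allowed cl I f' (f' l) ⊆ univ.filter fun γ => cl γ = l := by
        rw [← allowed_self hf' hl.1]
        exact inter_subset_right
      exact_mod_cast card_le_card this
    · exact prod_nonneg fun l _ => hx0 _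
    · exact prod_nonneg fun l _ => hw0 l

/-- **The second moment lemma.** -/
theorem second_moment [Nonempty Γ] (cl : Γ → ι) (G : Finset (ι → V))
    (hinj : ∀ f ∈ G, Function.Injective f) (hne : G.Nonempty) (I B : Finset ι) (hBI : B ⊆ I)
    (hcl : ∀ l ∈ I, ∃ γ, cl γ = l) (w : ι → ℝ)
    (hw : ∀ l, w l = ((univ.filter fun γ => cl γ = l).card : ℝ) / Fintype.card Γ)
    (lam : ℝ) (hlam : 0 < lam)
    (hspread : ∀ f ∈ G, ∀ J ⊆ I,
      ((G.filter fun f' => ∀ l ∈ J, f' l = f l).card : ℝ) * lam ^ J.card ≤ G.card) :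
    ∃ c : V → Γ, ∏ l ∈ B, (lam * w l) ≤
      (((G.filter fun f => ∀ l ∈ I, cl (c (f l)) = l).image
        fun f => fun l : B => f l).card : ℝ) * ∏ l ∈ I \ B, (1 + 1 / (lam * w l)) := by
  have hg : (0 : ℝ) < Fintype.card Γ := by exact_mod_cast Fintype.card_pos
  have hwpos : ∀ l ∈ I, 0 < w l := by
    intro l hl
    obtain ⟨γ, hγ⟩ := hcl l hl
    rw [hw]
    apply div_pos _ hg
    have : 0 < (univ.filter fun γ => cl γ = l).card :=
      card_pos.2 ⟨γ, by rw [mem_filter]; exact ⟨mem_univ _, hγ⟩⟩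
    exact_mod_cast this
  obtain ⟨Lw, hLw⟩ : ∃ Lw, Lw = ∏ l ∈ B, (lam * w l) := ⟨_, rfl⟩
  obtain ⟨Q, hQ⟩ : ∃ Q, Q = ∏ l ∈ I \ B, (1 + 1 / (lam * w l)) := ⟨_, rfl⟩
  obtain ⟨X, hX⟩ : ∃ X : (V → Γ) → Finset (ι → V), ∀ c, X c =
      G.filter fun f => ∀ l ∈ I, cl (c (f l)) = l := ⟨_, fun _ => rfl⟩
  obtain ⟨P, hP⟩ : ∃ P : (V → Γ) → Finset (B → V), ∀ c, P c =
      (X c).image fun f => fun l : B => f l := ⟨_, fun _ => rfl⟩
  obtain ⟨Y, hY⟩ : ∃ Y : (V → Γ) → Finset ((ι → V) × (ι → V)), ∀ c, Y c =
      (X c ×ˢ X c).filter fun q => ∀ l ∈ B, q.2 l = q.1 l := ⟨_, fun _ => rfl⟩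
  obtain ⟨W, hW⟩ : ∃ W, W = (Fintype.card Γ : ℝ) ^ Fintype.card V := ⟨_, rfl⟩
  obtain ⟨wI, hwI⟩ : ∃ wI, wI = ∏ l ∈ I, w l := ⟨_, rfl⟩
  obtain ⟨wR, hwR⟩ : ∃ wR, wR = ∏ l ∈ I \ B, w l := ⟨_, rfl⟩
  have hWpos : 0 < W := by rw [hW]; positivity
  have hwIpos : 0 < wI := by rw [hwI]; exact prod_pos hwpos
  have hwRpos : 0 < wR := by
    rw [hwR]
    exact prod_pos fun l hl => hwpos l (mem_sdiff.1 hl).1
  have hLwpos : 0 < Lw := by
    rw [hLw]
    exact prod_pos fun l hl => mul_pos hlam (hwpos l (hBI hl))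
  have hQpos : 0 < Q := by
    rw [hQ]
    apply prod_pos
    intro l hl
    have := mul_pos hlam (hwpos l (mem_sdiff.1 hl).1)
    positivity
  have hGpos : (0 : ℝ) < G.card := by exact_mod_cast card_pos.2 hne
  -- first moment
  have hfirst : ∑ c, ((X c).card : ℝ) = G.card * (W * wI) := by
    have h1 : ∀ c, ((X c).card : ℝ) = ∑ f ∈ G, if (∀ l ∈ I, cl (c (f l)) = l) then (1 : ℝ) else 0 := by
      intro c
      rw [hX, card_filter]
      push_cast
      rfl
    rw [sum_congr rfl fun c _ => h1 c, sum_comm]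
    have h2 : ∀ f ∈ G, (∑ c : V → Γ, if (∀ l ∈ I, cl (c (f l)) = l) then (1 : ℝ) else 0) =
        W * wI := by
      intro f hf
      have h3 := count_single cl I w hw (hinj f hf)
      rw [card_filter] at h3
      push_cast at h3
      rw [h3, hW, hwI]
    rw [sum_congr rfl h2, sum_const, nsmul_eq_mul]
  -- Cauchy-Schwarz
  have hCS : ∀ c, ((X c).card : ℝ) ^ 2 ≤ (P c).card * (Y c).card := by
    intro c
    have h1 : (X c).card = ∑ y ∈ P c, ((X c).filter fun f => (fun l : B => f l) = y).card := by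
      apply card_eq_sum_card_fiberwise
      intro f hf
      rw [hP]
      exact mem_coe.2 (mem_image_of_mem _ hf)
    have h2 : (Y c).card = ∑ y ∈ P c, ((X c).filter fun f => (fun l : B => f l) = y).card ^ 2 := by
      have h3 : (Y c).card = ∑ y ∈ P c, ((Y c).filter fun q => (fun l : B => q.1 l) = y).card := by
        apply card_eq_sum_card_fiberwise
        intro q hq
        rw [mem_coe, hY, mem_filter, mem_product] at hq
        rw [hP]
        exact mem_coe.2 (mem_image_of_mem _ hq.1.1)
      rw [h3]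
      apply sum_congr rfl
      intro y _
      have h4 : ((Y c).filter fun q => (fun l : B => q.1 l) = y) =
          ((X c).filter fun f => (fun l : B => f l) = y) ×ˢ
            ((X c).filter fun f => (fun l : B => f l) = y) := by
        ext q
        rw [hY, mem_filter, mem_filter, mem_product, mem_product, mem_filter, mem_filter]
        constructor
        · rintro ⟨⟨⟨h5, h6⟩, h7⟩, h8⟩
          refine ⟨⟨h5, h8⟩, h6, ?_⟩
          rw [← h8]
          funext l
          exact h7 l l.2
        · rintro ⟨⟨h5, h6⟩, h7, h8⟩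
          refine ⟨⟨⟨h5, h7⟩, fun l hl => ?_⟩, h6⟩
          have h9 := congrFun (h8.trans h6.symm) ⟨l, hl⟩
          exact h9
      rw [h4, card_product, sq]
    rw [h1, h2]
    push_cast
    exact sq_sum_le_card_mul_sum_sq
  -- second moment
  have hsecond : ∑ c, ((Y c).card : ℝ) ≤ G.card * (G.card * (W * wI * (wR * (Q / lam ^ B.card)))) := by
    have h1 : ∀ c, ((Y c).card : ℝ) ≤ ∑ f ∈ G, ∑ f' ∈ G.filter (fun f' => ∀ l ∈ B, f' l = f l),
        if ((∀ l ∈ I, cl (c (f l)) = l) ∧ ∀ l ∈ I, cl (c (f' l)) = l) then (1 : ℝ) else 0 := by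
      intro c
      have h2 : Y c ⊆ ((G ×ˢ G).filter fun q => (∀ l ∈ B, q.2 l = q.1 l)).filter fun q =>
          (∀ l ∈ I, cl (c (q.1 l)) = l) ∧ ∀ l ∈ I, cl (c (q.2 l)) = l := by
        intro q hq
        rw [hY, mem_filter, mem_product, hX, mem_filter, mem_filter] at hq
        rw [mem_filter, mem_filter, mem_product]
        exact ⟨⟨⟨hq.1.1.1, hq.1.2.1⟩, hq.2⟩, hq.1.1.2, hq.1.2.2⟩
      have h3 : ((Y c).card : ℝ) ≤ (((G ×ˢ G).filter fun q => (∀ l ∈ B, q.2 l = q.1 l)).filter
          fun q => (∀ l ∈ I, cl (c (q.1 l)) = l) ∧ ∀ l ∈ I, cl (c (q.2 l)) = l).card := by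
        exact_mod_cast card_le_card h2
      refine h3.trans (le_of_eq ?_)
      rw [card_filter]
      push_cast
      rw [sum_filter, sum_product]
      apply sum_congr rfl
      intro f _
      rw [sum_filter]
    refine (sum_le_sum fun c _ => h1 c).trans ?_
    rw [sum_comm, ← nsmul_eq_mul, ← sum_const]
    apply sum_le_sum
    intro f hf
    rw [sum_comm]
    have h2 : ∀ f' ∈ G.filter (fun f' => ∀ l ∈ B, f' l = f l),
        (∑ c : V → Γ, if ((∀ l ∈ I, cl (c (f l)) = l) ∧ ∀ l ∈ I, cl (c (f' l)) = l)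
          then (1 : ℝ) else 0) ≤
        ∑ K ∈ (I \ B).powerset, if (∀ l ∈ K, f' l = f l) then W * wI * wR * ∏ l ∈ K, 1 / w l
          else 0 := by
      intro f' hf'
      rw [mem_filter] at hf'
      have h3 := count_pair cl I w hw (hinj f hf) (hinj f' hf'.1)
      rw [card_filter] at h3
      push_cast at h3
      refine h3.trans ?_
      rw [← hW, ← hwI]
      obtain ⟨K, hK⟩ : ∃ K, K = (I \ B).filter fun l => f' l = f l := ⟨_, rfl⟩
      have h4 : ∏ l ∈ I with f l ≠ f' l, w l = wR * ∏ l ∈ K, 1 / w l := by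
        have h5 : (I.filter fun l => f l ≠ f' l) = (I \ B) \ K := by
          ext l
          rw [mem_filter, mem_sdiff, mem_sdiff, hK, mem_filter, mem_sdiff]
          constructor
          · rintro ⟨h6, h7⟩
            have h8 : l ∉ B := fun h => h7 (hf'.2 l h).symm
            exact ⟨⟨h6, h8⟩, fun h => h7 h.2.symm⟩
          · rintro ⟨⟨h6, h7⟩, h8⟩
            exact ⟨h6, fun h => h8 ⟨⟨h6, h7⟩, h.symm⟩⟩
        have h6 : K ⊆ I \ B := by
          rw [hK]
          exact filter_subset _ _
        have h7 : (∏ l ∈ (I \ B) \ K, w l) * ∏ l ∈ K, w l = wR := by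
          rw [hwR]
          exact prod_sdiff h6
        rw [h5, ← h7, mul_assoc, ← prod_mul_distrib]
        have h8 : ∏ l ∈ K, (w l * (1 / w l)) = 1 := by
          apply prod_eq_one
          intro l hl
          have := (hwpos l (mem_sdiff.1 (h6 hl)).1).ne'
          field_simp
        rw [h8, mul_one]
      have h9 : W * (wI * ∏ l ∈ I with f l ≠ f' l, w l) =
          if (∀ l ∈ K, f' l = f l) then W * wI * wR * ∏ l ∈ K, 1 / w l else 0 := by
        rw [if_pos, h4]
        · ring
        · intro l hl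
          rw [hK, mem_filter] at hl
          exact hl.2
      rw [h9]
      apply single_le_sum (f := fun K => if (∀ l ∈ K, f' l = f l) then
        W * wI * wR * ∏ l ∈ K, 1 / w l else 0)
      · intro K' hK'
        rw [mem_powerset] at hK'
        split_ifs
        · have : 0 ≤ ∏ l ∈ K', 1 / w l := by
            apply prod_nonneg
            intro l hl
            have := (hwpos l (mem_sdiff.1 (hK' hl)).1).le
            positivity
          positivity
        · exact le_rfl
      · rw [mem_powerset, hK]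
        exact filter_subset _ _
    refine (sum_le_sum h2).trans ?_
    rw [sum_comm]
    have h3 : ∀ K ∈ (I \ B).powerset,
        (∑ f' ∈ G.filter (fun f' => ∀ l ∈ B, f' l = f l), if (∀ l ∈ K, f' l = f l) then
          W * wI * wR * ∏ l ∈ K, 1 / w l else 0) ≤
        (G.card * (W * wI * (wR * (1 / lam ^ B.card)))) * ∏ l ∈ K, 1 / (lam * w l) := by
      intro K hK
      rw [mem_powerset] at hK
      have h4 : (0 : ℝ) ≤ ∏ l ∈ K, 1 / w l := by
        apply prod_nonneg
        intro l hl
        have := (hwpos l (mem_sdiff.1 (hK hl)).1).le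
        positivity
      rw [← sum_filter, sum_const, nsmul_eq_mul, filter_filter]
      have h5 : (G.filter fun f' => (∀ l ∈ B, f' l = f l) ∧ ∀ l ∈ K, f' l = f l) =
          G.filter fun f' => ∀ l ∈ B ∪ K, f' l = f l := by
        apply filter_congr
        intro f' _
        constructor
        · rintro ⟨h6, h7⟩ l hl
          rcases mem_union.1 hl with hl | hl
          · exact h6 l hl
          · exact h7 l hl
        · intro h6
          exact ⟨fun l hl => h6 l (mem_union_left _ hl), fun l hl => h6 l (mem_union_right _ hl)⟩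
      rw [h5]
      have h6 := hspread f hf (B ∪ K) (union_subset hBI (hK.trans sdiff_subset))
      have h7 : (B ∪ K).card = B.card + K.card := by
        apply card_union_of_disjoint
        rw [disjoint_left]
        intro l hl hl'
        exact (mem_sdiff.1 (hK hl')).2 hl
      rw [h7, pow_add] at h6
      have h8 : ∏ l ∈ K, 1 / (lam * w l) = (1 / lam ^ K.card) * ∏ l ∈ K, 1 / w l := by
        rw [← prod_const, one_div, ← prod_inv_distrib, ← prod_mul_distrib]
        apply prod_congr rfl
        intro l _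
        rw [one_div, one_div, mul_inv]
      rw [h8]
      obtain ⟨N, hN⟩ : ∃ N : ℝ, N = (G.filter fun f' => ∀ l ∈ B ∪ K, f' l = f l).card := ⟨_, rfl⟩
      rw [← hN] at h6 ⊢
      have h9 : N ≤ G.card * (1 / lam ^ B.card) * (1 / lam ^ K.card) := by
        calc N = (N * (lam ^ B.card * lam ^ K.card)) * (1 / lam ^ B.card) * (1 / lam ^ K.card) := by
              field_simp
          _ ≤ G.card * (1 / lam ^ B.card) * (1 / lam ^ K.card) := by
              apply mul_le_mul_of_nonneg_right _ (by positivity)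
              exact mul_le_mul_of_nonneg_right h6 (by positivity)
      calc N * (W * wI * wR * ∏ l ∈ K, 1 / w l)
          ≤ (G.card * (1 / lam ^ B.card) * (1 / lam ^ K.card)) *
              (W * wI * wR * ∏ l ∈ K, 1 / w l) :=
            mul_le_mul_of_nonneg_right h9 (by positivity)
        _ = _ := by ring
    refine (sum_le_sum h3).trans (le_of_eq ?_)
    rw [← mul_sum, ← prod_one_add, ← hQ]
    ring
  -- conclusion
  rw [← hLw, ← hQ]
  have hP' : ∀ c, (((G.filter fun f => ∀ l ∈ I, cl (c (f l)) = l).image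
        fun f => fun l : B => f l).card : ℝ) = (P c).card := by
    intro c
    rw [hP, hX]
  simp only [hP']
  by_contra hcon
  push Not at hcon
  have h1 : ∀ c, ((X c).card : ℝ) ^ 2 * Q ≤ Lw * (Y c).card := by
    intro c
    calc ((X c).card : ℝ) ^ 2 * Q ≤ ((P c).card * (Y c).card) * Q :=
          mul_le_mul_of_nonneg_right (hCS c) hQpos.le
      _ = ((P c).card * Q) * (Y c).card := by ring
      _ ≤ Lw * (Y c).card := mul_le_mul_of_nonneg_right (hcon c).le (by positivity)
  obtain ⟨c₀, hc₀⟩ : ∃ c, (X c).Nonempty := by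
    by_contra hno
    push Not at hno
    have h2 : ∑ c, ((X c).card : ℝ) = 0 := by
      apply sum_eq_zero
      intro c _
      rw [hno c, card_empty, Nat.cast_zero]
    rw [hfirst] at h2
    have h3 : 0 < (G.card : ℝ) * (W * wI) := by positivity
    linarith
  have h2 : ((X c₀).card : ℝ) ^ 2 * Q < Lw * (Y c₀).card := by
    have hYpos : (0 : ℝ) < (Y c₀).card := by
      obtain ⟨f, hf⟩ := hc₀
      have : (f, f) ∈ Y c₀ := by
        rw [hY, mem_filter, mem_product]
        exact ⟨⟨hf, hf⟩, fun _ _ => rfl⟩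
      exact_mod_cast card_pos.2 ⟨_, this⟩
    calc ((X c₀).card : ℝ) ^ 2 * Q ≤ ((P c₀).card * (Y c₀).card) * Q :=
          mul_le_mul_of_nonneg_right (hCS c₀) hQpos.le
      _ = ((P c₀).card * Q) * (Y c₀).card := by ring
      _ < Lw * (Y c₀).card := mul_lt_mul_of_pos_right (hcon c₀) hYpos
  have h3 : ∑ c, ((X c).card : ℝ) ^ 2 * Q < ∑ c, Lw * (Y c).card :=
    sum_lt_sum (fun c _ => h1 c) ⟨c₀, mem_univ _, h2⟩
  rw [← sum_mul, ← mul_sum] at h3
  have h4 : (∑ c, ((X c).card : ℝ)) ^ 2 ≤ W * ∑ c, ((X c).card : ℝ) ^ 2 := by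
    have h5 := sq_sum_le_card_mul_sum_sq (s := (univ : Finset (V → Γ)))
      (f := fun c => ((X c).card : ℝ))
    rw [card_univ, Fintype.card_fun] at h5
    push_cast at h5
    rw [hW]
    exact h5
  have h5 : Lw * wR = wI * lam ^ B.card := by
    have h6 : wR * ∏ l ∈ B, w l = wI := by
      rw [hwR, hwI]
      exact prod_sdiff hBI
    rw [hLw, prod_mul_distrib, prod_const, ← h6]
    ring
  rw [hfirst] at h4
  have h6 : ((G.card : ℝ) * (W * wI)) ^ 2 * Q < W * (Lw * (G.card * (G.card *
      (W * wI * (wR * (Q / lam ^ B.card)))))) := by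
    calc ((G.card : ℝ) * (W * wI)) ^ 2 * Q ≤ (W * ∑ c, ((X c).card : ℝ) ^ 2) * Q :=
          mul_le_mul_of_nonneg_right h4 hQpos.le
      _ = W * ((∑ c, ((X c).card : ℝ) ^ 2) * Q) := by ring
      _ < W * (Lw * ∑ c, ((Y c).card : ℝ)) := mul_lt_mul_of_pos_left h3 hWpos
      _ ≤ _ := mul_le_mul_of_nonneg_left (mul_le_mul_of_nonneg_left hsecond hLwpos.le) hWpos.le
  have h7 : W * (Lw * (G.card * (G.card * (W * wI * (wR * (Q / lam ^ B.card)))))) =
      ((G.card : ℝ) * (W * wI)) ^ 2 * Q := by
    calc W * (Lw * (G.card * (G.card * (W * wI * (wR * (Q / lam ^ B.card))))))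
        = (G.card : ℝ) ^ 2 * W ^ 2 * wI * (Lw * wR) * (Q / lam ^ B.card) := by ring
      _ = (G.card : ℝ) ^ 2 * W ^ 2 * wI * (wI * lam ^ B.card) * (Q / lam ^ B.card) := by rw [h5]
      _ = ((G.card : ℝ) * (W * wI)) ^ 2 * Q := by
          field_simp
  rw [h7] at h6
  exact lt_irrefl _ h6

end Pool.Agent.T9h34.N
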