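import Pool.Agent.T9h34.N.Core
import Pool.Agent.T9h35.Sharp.Closed

/-!
# Random colourings: many blocks contain many members of a spread family
-/

set_option autoImplicit false

namespace Pool.Agent.T9h34.N

open Finset Pool.Agent.T9h35.Sharp
open scoped Classical

variable {j W p : ℕ}

/-- The number of functions with prescribed values. -/
theorem card_presc {V : Type} [Fintype V] [DecidableEq V] (p : ℕ) (S : Finset V) (a : V → Fin p) :
    (univ.filter fun γ : V → Fin p => ∀ v ∈ S, γ v = a v).card * p ^ S.card =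
      p ^ Fintype.card V := by
  have h1 : (univ.filter fun γ : V → Fin p => ∀ v ∈ S, γ v = a v) =
      Fintype.piFinset (fun v => if v ∈ S then {a v} else univ) := by
    ext γ
    rw [mem_filter, Fintype.mem_piFinset]
    constructor
    · rintro ⟨-, h⟩ v
      by_cases hv : v ∈ S
      · rw [if_pos hv, mem_singleton]
        exact h v hv
      · rw [if_neg hv]
        exact mem_univ _
    · intro h
      refine ⟨mem_univ _, fun v hv => ?_⟩
      have := h v
      rwa [if_pos hv, mem_singleton] at this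
  have h2 : ∀ v, (if v ∈ S then ({a v} : Finset (Fin p)) else univ).card =
      if v ∈ S then 1 else p := by
    intro v
    by_cases hv : v ∈ S
    · rw [if_pos hv, if_pos hv, card_singleton]
    · rw [if_neg hv, if_neg hv, card_univ, Fintype.card_fin]
  rw [h1, Fintype.card_piFinset, prod_congr rfl fun v _ => h2 v, prod_ite, prod_const_one, one_mul,
    prod_const, ← pow_add]
  congr 1
  have h3 := card_filter_add_card_filter_not (s := (univ : Finset V)) (fun v => v ∈ S)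
  rw [card_univ] at h3
  have h4 : (univ.filter fun v => v ∈ S) = S := by
    ext v
    simp
  rw [h4] at h3
  omega

/-- The transversal `ψ` lies in the block with colours `a`. -/
def InB (a : Fin j → Fin p) (γ : Vx j W → Fin p) (ψ : Fin j → Fin W) : Prop :=
  ∀ i, γ (i, ψ i) = a i

/-- The number of members of `F` in the block. -/
noncomputable def cntB (F : Finset (Fin j → Fin W)) (a : Fin j → Fin p) (γ : Vx j W → Fin p) : ℕ :=
  (F.filter (InB a γ)).card

theorem inB_iff (a : Fin j → Fin p) (γ : Vx j W → Fin p) (ψ : Fin j → Fin W) :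
    InB a γ ψ ↔ ∀ v ∈ gr ψ, γ v = a v.1 := by
  constructor
  · intro h v hv
    rw [mem_gr] at hv
    have := h v.1
    rw [hv] at this
    exact this
  · intro h i
    exact h (i, ψ i) (by rw [mem_gr])

/-- The number of parts where two transversals agree. -/
noncomputable def agr (ψ ψ' : Fin j → Fin W) : ℕ := (univ.filter fun i => ψ i = ψ' i).card

theorem card_gr_inter (ψ ψ' : Fin j → Fin W) : (gr ψ ∩ gr ψ').card = agr ψ ψ' := by
  have h : gr ψ ∩ gr ψ' = (univ.filter fun i => ψ i = ψ' i).image (fun i => (i, ψ i)) := by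
    ext v
    rw [mem_inter, mem_gr, mem_gr, mem_image]
    constructor
    · rintro ⟨h1, h2⟩
      refine ⟨v.1, ?_, ?_⟩
      · rw [mem_filter]
        exact ⟨mem_univ _, h1.trans h2.symm⟩
      · rw [h1]
    · rintro ⟨i, hi, rfl⟩
      rw [mem_filter] at hi
      exact ⟨rfl, hi.2.symm⟩
  rw [h, card_image_of_injective, agr]
  intro i i' hi
  exact (Prod.ext_iff.1 hi).1

theorem card_gr_union (ψ ψ' : Fin j → Fin W) : (gr ψ ∪ gr ψ').card + agr ψ ψ' = 2 * j := by
  have := card_union_add_card_inter (gr ψ) (gr ψ')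
  rw [card_gr_inter, card_gr, card_gr] at this
  omega

theorem count_one (a : Fin j → Fin p) (ψ : Fin j → Fin W) :
    (univ.filter fun γ : Vx j W → Fin p => InB a γ ψ).card * p ^ j =
      p ^ Fintype.card (Vx j W) := by
  have h := card_presc p (gr ψ) (fun v : Vx j W => a v.1)
  rw [card_gr] at h
  rw [← h]
  congr 2
  ext γ
  rw [mem_filter, mem_filter, inB_iff]

theorem count_two (a : Fin j → Fin p) (ψ ψ' : Fin j → Fin W) :
    (univ.filter fun γ : Vx j W → Fin p => InB a γ ψ ∧ InB a γ ψ').card * p ^ (2 * j) =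
      p ^ Fintype.card (Vx j W) * p ^ agr ψ ψ' := by
  have h := card_presc p (gr ψ ∪ gr ψ') (fun v : Vx j W => a v.1)
  rw [← card_gr_union ψ ψ', pow_add, ← mul_assoc, ← h]
  congr 3
  ext γ
  rw [mem_filter, mem_filter, inB_iff, inB_iff]
  constructor
  · rintro ⟨-, h1, h2⟩
    refine ⟨mem_univ _, fun v hv => ?_⟩
    rcases mem_union.1 hv with hv | hv
    · exact h1 v hv
    · exact h2 v hv
  · rintro ⟨-, h1⟩
    exact ⟨mem_univ _, fun v hv => h1 v (mem_union_left _ hv),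
      fun v hv => h1 v (mem_union_right _ hv)⟩

/-- First moment. -/
theorem moment_one (F : Finset (Fin j → Fin W)) (a : Fin j → Fin p) :
    (∑ γ : Vx j W → Fin p, cntB F a γ) * p ^ j = F.card * p ^ Fintype.card (Vx j W) := by
  have h1 : ∀ γ : Vx j W → Fin p, cntB F a γ = ∑ ψ ∈ F, if InB a γ ψ then 1 else 0 := by
    intro γ
    rw [cntB, card_filter]
  rw [sum_congr rfl fun γ _ => h1 γ, sum_comm, sum_mul]
  have h2 : ∀ ψ ∈ F, (∑ γ : Vx j W → Fin p, if InB a γ ψ then 1 else 0) * p ^ j =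
      p ^ Fintype.card (Vx j W) := by
    intro ψ _
    rw [← card_filter]
    exact count_one a ψ
  rw [sum_congr rfl h2, sum_const, smul_eq_mul]

theorem add_pow_le (hp : 1 ≤ p) (ρ : ℕ) (hρ : 2 * j * p ≤ ρ) : (p + ρ) ^ j ≤ 2 * ρ ^ j := by
  have hp' : (0 : ℝ) < p := by exact_mod_cast hp
  have h1 := Moment.pow_add_one_le (β := (ρ : ℝ) / p) (n := j) (by
    rw [le_div_iff₀ hp']
    exact_mod_cast hρ)
  have h2 : ((p : ℝ) + ρ) ^ j ≤ 2 * (ρ : ℝ) ^ j := by
    have h3 : (p : ℝ) + ρ = p * (1 + ρ / p) := by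
      field_simp
    have h4 : (ρ : ℝ) = p * (ρ / p) := by
      field_simp
    calc ((p : ℝ) + ρ) ^ j = p ^ j * (1 + ρ / p) ^ j := by rw [h3, mul_pow]
      _ ≤ p ^ j * (2 * (ρ / p) ^ j) := mul_le_mul_of_nonneg_left h1 (by positivity)
      _ = 2 * (p * (ρ / p)) ^ j := by rw [mul_pow]; ring
      _ = 2 * (ρ : ℝ) ^ j := by rw [← h4]
  exact_mod_cast h2

/-- The sum over the second transversal. -/
theorem sum_agr (hp : 1 ≤ p) (ρ : ℕ) (hρ : 2 * j * p ≤ ρ) (F : Finset (Fin j → Fin W))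
    (hF : ∀ (T : Finset (Fin j)) (ψ₁ : Fin j → Fin W), (link F T ψ₁).card * ρ ^ T.card ≤ F.card)
    (ψ : Fin j → Fin W) : ∑ ψ' ∈ F, p ^ agr ψ ψ' ≤ 2 * F.card := by
  rcases Nat.eq_zero_or_pos j with hj | hj
  · subst hj
    have : ∀ ψ' ∈ F, p ^ agr ψ ψ' = 1 := by
      intro ψ' _
      have h1 : agr ψ ψ' = 0 := by
        rw [agr]
        have := card_le_univ (univ.filter fun i : Fin 0 => ψ i = ψ' i)
        rw [Fintype.card_fin] at this
        omega
      rw [h1, pow_zero]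
    rw [sum_congr rfl this, sum_const, smul_eq_mul]
    omega
  have hρ1 : 1 ≤ ρ := by
    have : 1 * 1 ≤ 2 * j * p := Nat.mul_le_mul (by omega) hp
    omega
  have h1 : ∀ ψ' ∈ F, p ^ agr ψ ψ' ≤ ∑ T : Finset (Fin j),
      p ^ T.card * if ∀ i ∈ T, ψ' i = ψ i then 1 else 0 := by
    intro ψ' _
    have h2 : p ^ agr ψ ψ' = p ^ (univ.filter fun i => ψ i = ψ' i).card *
        if ∀ i ∈ (univ.filter fun i => ψ i = ψ' i), ψ' i = ψ i then 1 else 0 := by
      rw [if_pos, mul_one, agr]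
      intro i hi
      rw [mem_filter] at hi
      exact hi.2.symm
    rw [h2]
    exact single_le_sum (f := fun T : Finset (Fin j) =>
      p ^ T.card * if ∀ i ∈ T, ψ' i = ψ i then 1 else 0) (fun _ _ => Nat.zero_le _) (mem_univ _)
  have h3 : ∑ ψ' ∈ F, p ^ agr ψ ψ' ≤ ∑ T : Finset (Fin j), p ^ T.card * (link F T ψ).card := by
    refine (sum_le_sum h1).trans ?_
    rw [sum_comm]
    apply sum_le_sum
    intro T _
    rw [← mul_sum, ← card_filter]
    exact le_rfl
  have h4 : (∑ T : Finset (Fin j), p ^ T.card * (link F T ψ).card) * ρ ^ j ≤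
      F.card * (p + ρ) ^ j := by
    have h5 := Finset.sum_pow_mul_eq_add_pow p ρ (univ : Finset (Fin j))
    rw [card_univ, Fintype.card_fin, powerset_univ] at h5
    rw [← h5, sum_mul, mul_sum]
    apply sum_le_sum
    intro T _
    have h6 : T.card ≤ j := by
      have := card_le_univ T
      rwa [Fintype.card_fin] at this
    calc p ^ T.card * (link F T ψ).card * ρ ^ j
        = p ^ T.card * ρ ^ (j - T.card) * ((link F T ψ).card * ρ ^ T.card) := by
          rw [show ρ ^ j = ρ ^ (j - T.card) * ρ ^ T.card by rw [← pow_add]; congr 1; omega]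
          ring
      _ ≤ p ^ T.card * ρ ^ (j - T.card) * F.card := Nat.mul_le_mul_left _ (hF T ψ)
      _ = F.card * (p ^ T.card * ρ ^ (j - T.card)) := by ring
  have h7 : 0 < ρ ^ j := Nat.pow_pos hρ1
  apply Nat.le_of_mul_le_mul_right _ h7
  calc (∑ ψ' ∈ F, p ^ agr ψ ψ') * ρ ^ j
      ≤ (∑ T : Finset (Fin j), p ^ T.card * (link F T ψ).card) * ρ ^ j :=
        Nat.mul_le_mul_right _ h3
    _ ≤ F.card * (p + ρ) ^ j := h4
    _ ≤ F.card * (2 * ρ ^ j) := Nat.mul_le_mul_left _ (add_pow_le hp ρ hρ)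
    _ = 2 * F.card * ρ ^ j := by ring

/-- Second moment. -/
theorem moment_two (hp : 1 ≤ p) (ρ : ℕ) (hρ : 2 * j * p ≤ ρ) (F : Finset (Fin j → Fin W))
    (hF : ∀ (T : Finset (Fin j)) (ψ₁ : Fin j → Fin W), (link F T ψ₁).card * ρ ^ T.card ≤ F.card)
    (a : Fin j → Fin p) :
    (∑ γ : Vx j W → Fin p, cntB F a γ ^ 2) * p ^ (2 * j) ≤
      2 * F.card ^ 2 * p ^ Fintype.card (Vx j W) := by
  have h1 : ∀ γ : Vx j W → Fin p, cntB F a γ ^ 2 =
      ∑ ψ ∈ F, ∑ ψ' ∈ F, if InB a γ ψ ∧ InB a γ ψ' then 1 else 0 := by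
    intro γ
    rw [cntB, card_filter, sq, sum_mul_sum]
    refine sum_congr rfl fun ψ _ => sum_congr rfl fun ψ' _ => ?_
    by_cases h1 : InB a γ ψ
    · by_cases h2 : InB a γ ψ'
      · rw [if_pos h1, if_pos h2, if_pos ⟨h1, h2⟩, one_mul]
      · rw [if_pos h1, if_neg h2, if_neg (fun h => h2 h.2), mul_zero]
    · rw [if_neg h1, zero_mul, if_neg (fun h : InB a γ ψ ∧ InB a γ ψ' => h1 h.1)]
  have h2 : (∑ γ : Vx j W → Fin p, cntB F a γ ^ 2) =
      ∑ ψ ∈ F, ∑ ψ' ∈ F, (univ.filter fun γ : Vx j W → Fin p => InB a γ ψ ∧ InB a γ ψ').card := by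
    rw [sum_congr rfl fun γ _ => h1 γ, sum_comm]
    refine sum_congr rfl fun ψ _ => ?_
    rw [sum_comm]
    refine sum_congr rfl fun ψ' _ => ?_
    rw [card_filter]
  rw [h2, sum_mul]
  have h3 : ∀ ψ ∈ F, (∑ ψ' ∈ F, (univ.filter fun γ : Vx j W → Fin p =>
      InB a γ ψ ∧ InB a γ ψ').card) * p ^ (2 * j) ≤ 2 * F.card * p ^ Fintype.card (Vx j W) := by
    intro ψ _
    rw [sum_mul, sum_congr rfl fun ψ' _ => count_two a ψ ψ', ← mul_sum, mul_comm]
    exact Nat.mul_le_mul_right _ (sum_agr hp ρ hρ F hF ψ)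
  refine (sum_le_sum h3).trans ?_
  rw [sum_const, smul_eq_mul]
  apply le_of_eq
  ring

/-- A block contains its share of `F` for at least an eighth of the colourings. -/
theorem rich_one (hp : 1 ≤ p) (ρ : ℕ) (hρ : 2 * j * p ≤ ρ) (F : Finset (Fin j → Fin W))
    (hF : ∀ (T : Finset (Fin j)) (ψ₁ : Fin j → Fin W), (link F T ψ₁).card * ρ ^ T.card ≤ F.card)
    (a : Fin j → Fin p) :
    p ^ Fintype.card (Vx j W) ≤ 8 * (univ.filter fun γ : Vx j W → Fin p =>
      F.card ≤ 2 * p ^ j * cntB F a γ).card := by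
  rcases Nat.eq_zero_or_pos F.card with h0 | h0
  · have h1 : (univ.filter fun γ : Vx j W → Fin p => F.card ≤ 2 * p ^ j * cntB F a γ) = univ := by
      apply filter_true_of_mem
      intro γ _
      rw [h0]
      exact Nat.zero_le _
    rw [h1, card_univ, Fintype.card_fun, Fintype.card_fin]
    omega
  obtain ⟨G, hG⟩ : ∃ G, G = p ^ Fintype.card (Vx j W) := ⟨_, rfl⟩
  obtain ⟨R, hR⟩ : ∃ R, R = (univ.filter fun γ : Vx j W → Fin p =>
      F.card ≤ 2 * p ^ j * cntB F a γ) := ⟨_, rfl⟩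
  have hm1 := moment_one (W := W) F a
  have hm2 := moment_two hp ρ hρ F hF a
  rw [← hG] at hm1 hm2 ⊢
  rw [← hR]
  have hGpos : 0 < G := by
    rw [hG]
    exact Nat.pow_pos hp
  obtain ⟨B, hB⟩ : ∃ B, B = ∑ γ ∈ R, cntB F a γ := ⟨_, rfl⟩
  have hsplit : (∑ γ : Vx j W → Fin p, cntB F a γ) = B + ∑ γ ∈ Rᶜ, cntB F a γ := by
    rw [hB, sum_add_sum_compl]
  have hcomp : 2 * p ^ j * (∑ γ ∈ Rᶜ, cntB F a γ) ≤ F.card * G := by
    rw [mul_sum]
    calc ∑ γ ∈ Rᶜ, 2 * p ^ j * cntB F a γ ≤ ∑ _γ ∈ Rᶜ, F.card := by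
          apply sum_le_sum
          intro γ hγ
          rw [mem_compl, hR, mem_filter] at hγ
          push Not at hγ
          exact (hγ (mem_univ _)).le
      _ = Rᶜ.card * F.card := by rw [sum_const, smul_eq_mul]
      _ ≤ G * F.card := by
          apply Nat.mul_le_mul_right
          have := card_le_univ Rᶜ
          rwa [Fintype.card_fun, Fintype.card_fin, ← hG] at this
      _ = F.card * G := mul_comm _ _
  have hBlow : F.card * G ≤ 2 * p ^ j * B := by
    rw [hsplit] at hm1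
    have h1 : 2 * (F.card * G) = 2 * p ^ j * B + 2 * p ^ j * (∑ γ ∈ Rᶜ, cntB F a γ) := by
      rw [← hm1]
      ring
    omega
  have hCS : B ^ 2 ≤ R.card * ∑ γ : Vx j W → Fin p, cntB F a γ ^ 2 := by
    rw [hB]
    refine sq_sum_le_card_mul_sum_sq.trans ?_
    apply Nat.mul_le_mul_left
    exact sum_le_sum_of_subset (subset_univ _)
  have h1 : (F.card * G) ^ 2 ≤ 8 * R.card * F.card ^ 2 * G := by
    calc (F.card * G) ^ 2 ≤ (2 * p ^ j * B) ^ 2 := Nat.pow_le_pow_left hBlow 2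
      _ = 4 * p ^ (2 * j) * B ^ 2 := by rw [pow_mul']; ring
      _ ≤ 4 * p ^ (2 * j) * (R.card * ∑ γ : Vx j W → Fin p, cntB F a γ ^ 2) :=
          Nat.mul_le_mul_left _ hCS
      _ = 4 * R.card * ((∑ γ : Vx j W → Fin p, cntB F a γ ^ 2) * p ^ (2 * j)) := by ring
      _ ≤ 4 * R.card * (2 * F.card ^ 2 * G) := Nat.mul_le_mul_left _ hm2
      _ = 8 * R.card * F.card ^ 2 * G := by ring
  have h2 : 0 < F.card ^ 2 * G := Nat.mul_pos (Nat.pow_pos h0) hGpos
  apply Nat.le_of_mul_le_mul_right _ h2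
  calc G * (F.card ^ 2 * G) = (F.card * G) ^ 2 := by ring
    _ ≤ 8 * R.card * F.card ^ 2 * G := h1
    _ = 8 * R.card * (F.card ^ 2 * G) := by ring

/-- Some colouring makes an eighth of the blocks rich. -/
theorem exists_rich {I : Type} [Fintype I] (hp : 1 ≤ p) (ρ : ℕ) (hρ : 2 * j * p ≤ ρ)
    (F : Finset (Fin j → Fin W))
    (hF : ∀ (T : Finset (Fin j)) (ψ₁ : Fin j → Fin W), (link F T ψ₁).card * ρ ^ T.card ≤ F.card)
    (a : I → Fin j → Fin p) : ∃ γ : Vx j W → Fin p,
    Fintype.card I ≤ 8 * (univ.filter fun β : I => F.card ≤ 2 * p ^ j * cntB F (a β) γ).card := by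
  by_contra hcon
  push Not at hcon
  have h1 : ∑ γ : Vx j W → Fin p,
      8 * (univ.filter fun β : I => F.card ≤ 2 * p ^ j * cntB F (a β) γ).card <
      ∑ _γ : Vx j W → Fin p, Fintype.card I := by
    apply sum_lt_sum_of_nonempty
    · have : Nonempty (Fin p) := ⟨⟨0, hp⟩⟩
      exact univ_nonempty
    · intro γ _
      exact hcon γ
  have h2 : ∑ γ : Vx j W → Fin p,
      8 * (univ.filter fun β : I => F.card ≤ 2 * p ^ j * cntB F (a β) γ).card =
      ∑ β : I, 8 * (univ.filter fun γ : Vx j W → Fin p =>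
        F.card ≤ 2 * p ^ j * cntB F (a β) γ).card := by
    simp only [card_filter, mul_sum]
    rw [sum_comm]
  have h3 : ∑ _β : I, p ^ Fintype.card (Vx j W) ≤
      ∑ β : I, 8 * (univ.filter fun γ : Vx j W → Fin p =>
        F.card ≤ 2 * p ^ j * cntB F (a β) γ).card :=
    sum_le_sum fun β _ => rich_one hp ρ hρ F hF (a β)
  rw [h2] at h1
  have h4 := lt_of_le_of_lt h3 h1
  rw [sum_const, sum_const, card_univ, card_univ, Fintype.card_fun, Fintype.card_fin,
    smul_eq_mul, smul_eq_mul, mul_comm] at h4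
  exact lt_irrefl _ h4

end Pool.Agent.T9h34.N
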