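import Pool.Agent.T9h34.N.Chain

/-!
# One block: many cliques found force many changes
-/

set_option autoImplicit false

namespace Pool.Agent.T9h34.N

open Finset Pool.Agent.T9h34 Pool.Agent.T9h16 Pool.Agent.T9h35.Sharp Pool.Agent.T9h35.NearBF
open scoped Classical

variable {I : Type} {κ j W p : ℕ}

/-- The input of the block with `κ` parts: outside of the range of `e` only the vertices of `φ₀`
are used, and they are joined to everything. -/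
def ext (e : Fin j ↪o Fin κ) (φ₀ : Fin κ → Fin W) (z : Set (EE j W)) : Set (EE κ W) :=
  {E | ((¬ ∃ i, e i = E.1.1.1) → E.1.1.2 = φ₀ E.1.1.1) ∧
    ((¬ ∃ i, e i = E.1.2.1) → E.1.2.2 = φ₀ E.1.2.1) ∧
    ∀ (a b : Fin j) (h : a < b), e a = E.1.1.1 → e b = E.1.2.1 →
      (⟨((a, E.1.1.2), (b, E.1.2.2)), h⟩ : EE j W) ∈ z}

theorem ext_mono (e : Fin j ↪o Fin κ) (φ₀ : Fin κ → Fin W) {z z' : Set (EE j W)} (h : z ⊆ z') :
    ext e φ₀ z ⊆ ext e φ₀ z' := by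
  rintro E ⟨h1, h2, h3⟩
  exact ⟨h1, h2, fun a b hab ha hb => h (h3 a b hab ha hb)⟩

theorem ext_posG (e : Fin j ↪o Fin κ) (φ₀ : Fin κ → Fin W) (ψ : Fin j → Fin W)
    {z : Set (EE j W)} (h : posG ψ ⊆ z) : posG (fill e φ₀ ψ) ⊆ ext e φ₀ z := by
  rintro E ⟨h1, h2⟩
  refine ⟨fun h3 => ?_, fun h3 => ?_, fun a b hab ha hb => h ⟨?_, ?_⟩⟩
  · rw [← h1, fill_not _ _ _ _ h3]
  · rw [← h2, fill_not _ _ _ _ h3]
  · show ψ a = E.1.1.2
    rw [← h1, ← ha, fill_apply]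
  · show ψ b = E.1.2.2
    rw [← h2, ← hb, fill_apply]

theorem TK_ext (e : Fin j ↪o Fin κ) (φ₀ : Fin κ → Fin W) {z : Set (EE j W)}
    (h : TK (ext e φ₀ z)) : TK z := by
  obtain ⟨φ, hφ⟩ := h
  refine ⟨fun i => φ (e i), ?_⟩
  rintro ⟨⟨⟨a, x⟩, ⟨b, x'⟩⟩, hab⟩ ⟨h1, h2⟩
  simp only at h1 h2
  subst h1
  subst h2
  have hab' : a < b := hab
  have h3 : (⟨((e a, φ (e a)), (e b, φ (e b))), e.strictMono hab'⟩ : EE κ W) ∈ posG φ :=
    ⟨rfl, rfl⟩
  exact (hφ h3).2.2 a b hab' rfl rfl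

theorem ext_leaf (e : Fin j ↪o Fin κ) (φ₀ : Fin κ → Fin W) (E : EE κ W) :
    (∀ z : Set (EE j W), E ∉ ext e φ₀ z) ∨ (∀ z : Set (EE j W), E ∈ ext e φ₀ z) ∨
    (∃ E' : EE j W, ∀ z : Set (EE j W), E ∈ ext e φ₀ z ↔ E' ∈ z) := by
  by_cases h1 : (¬ ∃ i, e i = E.1.1.1) → E.1.1.2 = φ₀ E.1.1.1
  · by_cases h2 : (¬ ∃ i, e i = E.1.2.1) → E.1.2.2 = φ₀ E.1.2.1
    · by_cases h3 : ∃ a b : Fin j, ∃ _ : a < b, e a = E.1.1.1 ∧ e b = E.1.2.1
      · obtain ⟨a, b, hab, ha, hb⟩ := h3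
        refine Or.inr (Or.inr ⟨⟨((a, E.1.1.2), (b, E.1.2.2)), hab⟩, fun z => ⟨fun h =>
          h.2.2 a b hab ha hb, fun h => ⟨h1, h2, ?_⟩⟩⟩)
        intro a' b' hab' ha' hb'
        have e1 : a' = a := e.injective (ha'.trans ha.symm)
        have e2 : b' = b := e.injective (hb'.trans hb.symm)
        subst e1
        subst e2
        exact h
      · refine Or.inr (Or.inl fun z => ⟨h1, h2, ?_⟩)
        intro a b hab ha hb
        exact absurd ⟨a, b, hab, ha, hb⟩ h3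
    · exact Or.inl fun z h => h2 h.2.1
  · exact Or.inl fun z h => h1 h.1

/-- Restriction of a block system to fewer parts. -/
def restr (σ : Sys I κ p) (e : Fin j ↪o Fin κ) : Sys I j p where
  grp β i := σ.grp β (e i)
  lin β β' i i' hii h1 h2 := σ.lin β β' (e i) (e i') (e.strictMono hii) h1 h2
  tri β₁ β₂ β₃ i₁ i₂ i₃ h12 h23 h1 h2 h3 := σ.tri β₁ β₂ β₃ (e i₁) (e i₂) (e i₃)
    (e.strictMono h12) (e.strictMono h23) h1 h2 h3

theorem const_le (m m' r : ℕ) (hm : m' ≤ m) (hm' : 1 ≤ m') (hr : 1 ≤ r) :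
    (2 ^ (m' + 1) * (2 * m' * (m' * r)) ^ m') ^ 2 ≤ ((4 * m ^ 2 * r) ^ 2) ^ (m + 1) := by
  have hm1 : 1 ≤ m := hm'.trans hm
  have hpos : 1 ≤ 4 * m ^ 2 * r := Nat.mul_pos (Nat.mul_pos (by norm_num) (Nat.pow_pos hm1)) hr
  have h0 : 1 ≤ 2 * m ^ 2 * r := Nat.mul_pos (Nat.mul_pos (by norm_num) (Nat.pow_pos hm1)) hr
  have h1 : 2 * m' * (m' * r) ≤ 2 * m ^ 2 * r := by
    have : 2 * m' * (m' * r) = 2 * m' ^ 2 * r := by ring
    rw [this]
    exact Nat.mul_le_mul_right _ (Nat.mul_le_mul_left _ (Nat.pow_le_pow_left hm 2))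
  have h2 : 2 ^ (m' + 1) * (2 * m' * (m' * r)) ^ m' ≤ (4 * m ^ 2 * r) ^ (m' + 1) := by
    calc 2 ^ (m' + 1) * (2 * m' * (m' * r)) ^ m'
        ≤ 2 ^ (m' + 1) * (2 * m ^ 2 * r) ^ m' :=
          Nat.mul_le_mul_left _ (Nat.pow_le_pow_left h1 _)
      _ ≤ 2 ^ (m' + 1) * (2 * m ^ 2 * r) ^ (m' + 1) :=
          Nat.mul_le_mul_left _ (Nat.pow_le_pow_right h0 (Nat.le_succ _))
      _ = (4 * m ^ 2 * r) ^ (m' + 1) := by
          rw [← mul_pow]
          congr 1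
          ring
  calc (2 ^ (m' + 1) * (2 * m' * (m' * r)) ^ m') ^ 2
      ≤ ((4 * m ^ 2 * r) ^ (m' + 1)) ^ 2 := Nat.pow_le_pow_left h2 2
    _ = ((4 * m ^ 2 * r) ^ 2) ^ (m' + 1) := by
        rw [← pow_mul, ← pow_mul, Nat.mul_comm (m' + 1) 2]
    _ ≤ ((4 * m ^ 2 * r) ^ 2) ^ (m + 1) :=
        Nat.pow_le_pow_right (Nat.pow_pos hpos) (by omega)

/-- One block. If a sound circuit finds many of the transversals then the values read by its
further gates change often along a chain of inputs without transversal cliques. -/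
theorem single_block [Fintype I] {Λ : Type} {m W p : ℕ} (hm : 2 ≤ m) (r N R : ℕ)
    (σ : Sys I (m + 1) p) (hI : 8 * R ≤ Fintype.card I)
    (C : Circuit Λ) (hs : C.size + C.numReads + 1 ≤ N)
    (X : Set (EE (m + 1) W) → Λ → Bool)
    (mono : ∀ z z', z ⊆ z' → ∀ a, X z a = true → X z' a = true)
    (leaf : ∀ a, Leaf (fun z => X z a = true))
    (sound : ∀ z, C.eval (X z) = true → TK z)
    (F : Finset (Fin (m + 1) → Fin W))
    (found : ∀ φ ∈ F, ∀ z, posG φ ⊆ z → C.eval (X z) = true)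
    (h1 : m ^ m * ((3 * N + 1) * ((m + 1) * W + 1) ^ m) < 2 ^ r)
    (h2 : 2 * N * W ^ 2 * ((4 * m ^ 2 * r) ^ 2 * (2 * (m + 1) * p)) ^ (m + 1) < F.card) :
    ∃ Y : ℕ → Set (EE (m + 1) W), (∀ i, Y i ⊆ Y (i + 1)) ∧ (∀ i, ¬ TK (Y i)) ∧
      ∀ i < R, C.reads (X (Y i)) ≠ C.reads (X (Y (i + 1))) := by
  rcases Nat.eq_zero_or_pos R with hR | hR
  · subst hR
    exact ⟨fun _ => ∅, fun _ => Set.Subset.rfl, fun _ => not_TK_empty (by omega),
      fun i hi => absurd hi (by omega)⟩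
  have hIne : Nonempty I := by
    rw [← Fintype.card_pos_iff]
    omega
  obtain ⟨β₀⟩ := hIne
  have hp : 1 ≤ p := by
    have := (σ.grp β₀ 0).2
    omega
  have hFne : F.Nonempty := by
    rw [← card_pos]
    omega
  obtain ⟨φ₁, hφ₁⟩ := hFne
  have hW : 1 ≤ W := by
    have := (φ₁ 0).2
    omega
  have hN : 1 ≤ N := by omega
  have hm1 : 1 ≤ m := by omega
  have hr : 1 ≤ r := by
    by_contra hcon
    have hr0 : r = 0 := by omega
    rw [hr0, pow_zero] at h1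
    have h3 : 0 < m ^ m * ((3 * N + 1) * ((m + 1) * W + 1) ^ m) := by positivity
    omega
  obtain ⟨ρ, hρ⟩ : ∃ ρ, ρ = 2 * (m + 1) * p := ⟨_, rfl⟩
  have hρp : p ≤ ρ := by
    rw [hρ]
    nlinarith
  have hρ1 : 1 ≤ ρ := hp.trans hρp
  rw [← hρ] at h2
  obtain ⟨c, hc⟩ : ∃ c, c = (4 * m ^ 2 * r) ^ 2 := ⟨_, rfl⟩
  have hc1 : 1 ≤ c := by
    rw [hc]
    exact Nat.pow_pos (Nat.mul_pos (Nat.mul_pos (by norm_num) (Nat.pow_pos hm1)) hr)
  rw [← hc] at h2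
  obtain ⟨j, e, φ₀, F', hjκ, hfill, hcard, hspread⟩ := exists_core F ⟨φ₁, hφ₁⟩ ρ hρ1
  have hcF' : 2 * N * W ^ 2 * c ^ (m + 1) * ρ ^ j < F'.card := by
    have h3 : 0 < ρ ^ (m + 1 - j) := Nat.pow_pos hρ1
    apply lt_of_mul_lt_mul_right _ (Nat.zero_le (ρ ^ (m + 1 - j)))
    calc 2 * N * W ^ 2 * c ^ (m + 1) * ρ ^ j * ρ ^ (m + 1 - j)
        = 2 * N * W ^ 2 * (c * ρ) ^ (m + 1) := by
          rw [mul_pow, mul_assoc (2 * N * W ^ 2 * c ^ (m + 1)), ← pow_add,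
            show j + (m + 1 - j) = m + 1 by omega]
          ring
      _ < F.card := h2
      _ ≤ F'.card * ρ ^ (m + 1 - j) := hcard
  have hcpos : 1 ≤ c ^ (m + 1) := Nat.pow_pos hc1
  have hj : 3 ≤ j := by
    by_contra hcon
    have h3 : F'.card ≤ W ^ j := by
      have := card_le_univ F'
      rwa [Fintype.card_fun, Fintype.card_fin, Fintype.card_fin] at this
    have h4 : W ^ j ≤ W ^ 2 := Nat.pow_le_pow_right hW (by omega)
    have h5 : W ^ 2 * 1 ≤ W ^ 2 * (2 * N * c ^ (m + 1) * ρ ^ j) := by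
      apply Nat.mul_le_mul_left
      exact Nat.mul_pos (Nat.mul_pos (by omega) hcpos) (Nat.pow_pos hρ1)
    have h6 : W ^ 2 * (2 * N * c ^ (m + 1) * ρ ^ j) = 2 * N * W ^ 2 * c ^ (m + 1) * ρ ^ j := by
      ring
    omega
  obtain ⟨m', rfl⟩ : ∃ m', j = m' + 1 := ⟨j - 1, by omega⟩
  have hm' : 2 ≤ m' := by omega
  have hmm : m' ≤ m := by omega
  obtain ⟨γ, hγ⟩ := exists_rich (I := I) hp ρ (by
    rw [hρ]
    apply Nat.mul_le_mul_right
    omega) F' hspread (fun β => (restr σ e).grp β)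
  obtain ⟨B, hB⟩ : ∃ B, B = (univ.filter fun β : I =>
      F'.card ≤ 2 * p ^ (m' + 1) * cntB F' ((restr σ e).grp β) γ) := ⟨_, rfl⟩
  rw [← hB] at hγ
  have hBR : R ≤ B.card := by omega
  have hBrich : ∀ β ∈ B, N * (2 ^ (m' + 1) * (2 * m' * (m' * r)) ^ m') ^ 2 <
      cntB F' ((restr σ e).grp β) γ := by
    intro β hβ
    rw [hB, mem_filter] at hβ
    have h3 := lt_of_lt_of_le hcF' hβ.2
    have h4 := const_le m m' r hmm (by omega) hr
    rw [← hc] at h4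
    have h5 : 2 * p ^ (m' + 1) * (N * c ^ (m + 1)) ≤ 2 * N * W ^ 2 * c ^ (m + 1) * ρ ^ (m' + 1) := by
      calc 2 * p ^ (m' + 1) * (N * c ^ (m + 1)) = 2 * N * 1 * c ^ (m + 1) * p ^ (m' + 1) := by ring
        _ ≤ 2 * N * W ^ 2 * c ^ (m + 1) * ρ ^ (m' + 1) := by
            apply Nat.mul_le_mul _ (Nat.pow_le_pow_left hρp _)
            apply Nat.mul_le_mul_right
            apply Nat.mul_le_mul_left
            exact Nat.pow_pos hW
    have h6 : 2 * p ^ (m' + 1) * (N * c ^ (m + 1)) <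
        2 * p ^ (m' + 1) * cntB F' ((restr σ e).grp β) γ := lt_of_le_of_lt h5 h3
    have h7 := lt_of_mul_lt_mul_left h6 (Nat.zero_le _)
    exact lt_of_le_of_lt (Nat.mul_le_mul_left _ h4) h7
  have hNS : NS (Vx (m' + 1) W) m' ≤ ((m + 1) * W + 1) ^ m := by
    refine (NS_le _ _).trans ?_
    rw [Fintype.card_prod, Fintype.card_fin, Fintype.card_fin]
    calc ((m' + 1) * W + 1) ^ m' ≤ ((m + 1) * W + 1) ^ m' :=
          Nat.pow_le_pow_left (Nat.succ_le_succ (Nat.mul_le_mul_right _ (by omega))) _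
      _ ≤ ((m + 1) * W + 1) ^ m := Nat.pow_le_pow_right (Nat.succ_pos _) hmm
  have hh1 : m' ^ m' * ((3 * N + 1) * NS (Vx (m' + 1) W) m') < 2 ^ r := by
    refine lt_of_le_of_lt ?_ h1
    apply Nat.mul_le_mul
    · calc m' ^ m' ≤ m ^ m' := Nat.pow_le_pow_left hmm _
        _ ≤ m ^ m := Nat.pow_le_pow_right hm1 hmm
    · exact Nat.mul_le_mul_left _ hNS
  obtain ⟨Y, hY1, hY2, hY3⟩ := chain_rich hm' r hr (restr σ e) γ F' C N hs
    (fun z => X (ext e φ₀ z)) (fun z z' hz a ha => mono _ _ (ext_mono e φ₀ hz) a ha) (by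
      intro a
      rcases leaf a with ⟨E, hE⟩ | ⟨b, hb⟩
      · rcases ext_leaf e φ₀ E with h | h | ⟨E', h⟩
        · refine Or.inr ⟨False, fun z => ?_⟩
          exact (hE _).trans ⟨fun h3 => h _ h3, fun h3 => h3.elim⟩
        · refine Or.inr ⟨True, fun z => ?_⟩
          exact (hE _).trans ⟨fun _ => trivial, fun _ => h _⟩
        · refine Or.inl ⟨E', fun z => ?_⟩
          exact (hE _).trans (h _)
      · exact Or.inr ⟨b, fun z => hb _⟩)
    (fun z hz => TK_ext e φ₀ (sound _ hz))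
    (fun ψ hψ z hz => found _ (hfill ψ hψ) _ (ext_posG e φ₀ ψ hz)) hh1 B hBrich
  refine ⟨fun i => ext e φ₀ (Y i), fun i => ext_mono e φ₀ (hY1 i), ?_, ?_⟩
  · intro i hi
    exact hY2 i (TK_ext e φ₀ hi)
  · intro i hi
    exact hY3 i (lt_of_lt_of_le hi hBR)

/-- Coordinates which are constants or memberships are monotone. -/
theorem mono_of_leaf {E Λ : Type} (X : Set E → Λ → Bool)
    (leaf : ∀ a, Leaf (fun z => X z a = true)) (z z' : Set E) (h : z ⊆ z') (a : Λ)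
    (ha : X z a = true) : X z' a = true := by
  rcases leaf a with ⟨e, he⟩ | ⟨b, hb⟩
  · exact (he z').2 (h ((he z).1 ha))
  · exact (hb z').2 ((hb z).1 ha)

/-- `single_block` without the monotonicity hypothesis. -/
theorem single [Fintype I] {Λ : Type} {m W p : ℕ} (hm : 2 ≤ m) (r N R : ℕ)
    (σ : Sys I (m + 1) p) (hI : 8 * R ≤ Fintype.card I)
    (C : Circuit Λ) (hs : C.size + C.numReads + 1 ≤ N)
    (h1 : m ^ m * ((3 * N + 1) * ((m + 1) * W + 1) ^ m) < 2 ^ r)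
    (X : Set (EE (m + 1) W) → Λ → Bool)
    (leaf : ∀ a, Leaf (fun z => X z a = true))
    (sound : ∀ z, C.eval (X z) = true → TK z)
    (F : Finset (Fin (m + 1) → Fin W))
    (found : ∀ φ ∈ F, ∀ z, posG φ ⊆ z → C.eval (X z) = true)
    (h2 : 2 * N * W ^ 2 * ((4 * m ^ 2 * r) ^ 2 * (2 * (m + 1) * p)) ^ (m + 1) < F.card) :
    ∃ Y : ℕ → Set (EE (m + 1) W), (∀ i, Y i ⊆ Y (i + 1)) ∧ (∀ i, ¬ TK (Y i)) ∧
      ∀ i < R, C.reads (X (Y i)) ≠ C.reads (X (Y (i + 1))) :=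
  single_block hm r N R σ hI C hs X (fun z z' h a ha => mono_of_leaf X leaf z z' h a ha) leaf
    sound F found h1 h2

end Pool.Agent.T9h34.N
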